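import Pool.Agent.Work.BV.Final

/-! # Bombieri-Vinogradov with level `x^(1/2) / (log x)^B`

`bv_full A`: for `Q (log x)^(4A+28) ≤ x^(1/2)`, `∑_{q ≤ Q} |ψ(x; q, a_q) - ψ(x)/φ(q)| ≤ C x / (log x)^A`.
Same proof as `BV/High.lean` and `BV/Final.lean`, with `U = V = ⌊min((log x)^(2A+12), x^(1/2))⌋`. -/

namespace Pool.Agent.BV

open Finset

/-- the large conductors, with free parameters -/
theorem high_gen : ∃ C : ℝ, 0 < C ∧ ∀ (x Q R₀ U : ℕ), 3 ≤ x → 1 ≤ U → U * U ≤ x → 1 ≤ R₀ → Q ≤ x →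
    ∑ r ∈ Ioc R₀ Q, (1 : ℝ) / r.totient * ∑ χ ∈ prim r, ‖psiC χ x‖ ≤
      2 * (C * x * (Real.log x) ^ 5 / R₀) + 3 * Real.log x *
        (C * x * (Real.log x) ^ 5 * (3 / Real.sqrt U + 4 * Q / Real.sqrt x) +
          32 * (Q : ℝ) ^ 2 * (U : ℝ) ^ 2 * Real.log x) := by
  obtain ⟨C, hC, hblock⟩ := block
  refine ⟨C, hC, ?_⟩
  intro x Q R₀ U hx hU1 hUx hR1' hQx
  have hxR : (3 : ℝ) ≤ x := by exact_mod_cast hx
  have hx0 : (0 : ℝ) < x := by linarith
  have hx1 : (1 : ℝ) ≤ x := by linarith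
  set L : ℝ := Real.log x with hL
  have hL1 : 1 ≤ L := by
    rw [hL, Real.le_log_iff_exp_le hx0]
    have := Real.exp_one_lt_d9
    linarith
  have hL0 : 0 < L := by linarith
  have hR1 : (1 : ℝ) ≤ R₀ := by exact_mod_cast hR1'
  have hUR1 : (1 : ℝ) ≤ U := by exact_mod_cast hU1
  set f : ℕ → ℝ := fun r => if r ≤ Q then (1 : ℝ) / r.totient * ∑ χ ∈ prim r, ‖psiC χ x‖ else 0
    with hf
  have hf0 : ∀ r, 0 ≤ (1 : ℝ) / r.totient * ∑ χ ∈ prim r, ‖psiC χ x‖ := fun r =>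
    mul_nonneg (by positivity) (sum_nonneg fun _ _ => norm_nonneg _)
  set E : ℝ := C * x * L ^ 5 * (3 / Real.sqrt U + 4 * Q / Real.sqrt x) +
      32 * (Q : ℝ) ^ 2 * (U : ℝ) ^ 2 * L with hE
  have hE0 : 0 ≤ E := by positivity
  set D : ℕ → ℝ := fun R => C * x * L ^ 5 * (1 / R) + E with hDdef
  have hD : ∀ R, R₀ ≤ R → ∑ r ∈ Ioc R (2 * R), f r ≤ D R := by
    intro R hRR
    by_cases hRQ : R ≤ Q
    · have hRQR : (R : ℝ) ≤ Q := by exact_mod_cast hRQ
      calc ∑ r ∈ Ioc R (2 * R), f r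
          ≤ ∑ r ∈ Ioc R (2 * R), (1 : ℝ) / r.totient * ∑ χ ∈ prim r, ‖psiC χ x‖ := by
            refine sum_le_sum fun r _ => ?_
            simp only [hf]
            split_ifs
            · exact le_refl _
            · exact hf0 r
        _ ≤ _ := high_range hC hblock x U R hx hU1 hUx (hR1'.trans hRR)
        _ = C * x * L ^ 5 * (1 / R) + (C * x * L ^ 5 * (3 / Real.sqrt U +
            4 * R / Real.sqrt x) + 32 * (R : ℝ) ^ 2 * (U : ℝ) ^ 2 * L) := by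
            rw [← hL]; ring
        _ ≤ D R := by
            simp only [hDdef, hE]
            gcongr
    · have h0 : ∑ r ∈ Ioc R (2 * R), f r = 0 := by
        apply sum_eq_zero
        intro r hr
        simp only [hf]
        rw [if_neg]
        have := (mem_Ioc.1 hr).1
        omega
      rw [h0]
      simp only [hDdef]
      positivity
  set j : ℕ := Nat.log 2 x + 1 with hj
  have hjx : x < 2 ^ j := Nat.lt_pow_succ_log_self (by norm_num) x
  have hjL : (j : ℝ) ≤ 3 * L := by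
    have h1 : (2 : ℝ) ^ (Nat.log 2 x) ≤ x := by
      exact_mod_cast Nat.pow_log_le_self 2 (by omega)
    have h2 := Real.log_le_log (by positivity) h1
    rw [Real.log_pow, ← hL] at h2
    have h3 := Real.log_two_gt_d9
    have h4 : (0 : ℝ) ≤ (Nat.log 2 x : ℝ) := Nat.cast_nonneg _
    have h5 : (Nat.log 2 x : ℝ) * 0.5 ≤ L := by nlinarith
    rw [hj]
    push_cast
    linarith
  have hQj : Q ≤ 2 ^ j * R₀ := by
    calc Q ≤ 2 ^ j := by omega
      _ ≤ 2 ^ j * R₀ := Nat.le_mul_of_pos_right _ (by omega)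
  have h1 : ∑ r ∈ Ioc R₀ Q, (1 : ℝ) / r.totient * ∑ χ ∈ prim r, ‖psiC χ x‖ ≤
      ∑ r ∈ Ioc R₀ (2 ^ j * R₀), f r := by
    calc ∑ r ∈ Ioc R₀ Q, (1 : ℝ) / r.totient * ∑ χ ∈ prim r, ‖psiC χ x‖
        = ∑ r ∈ Ioc R₀ Q, f r := by
          refine sum_congr rfl fun r hr => ?_
          simp only [hf]
          rw [if_pos (mem_Ioc.1 hr).2]
      _ ≤ _ := by
          refine sum_le_sum_of_subset_of_nonneg (Ioc_subset_Ioc_right hQj) ?_
          intro r _ _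
          simp only [hf]
          split_ifs
          · exact hf0 r
          · exact le_refl _
  have h2 := h1.trans (high_dyadic f D R₀ hD j)
  have h3 : ∑ i ∈ range j, D (2 ^ i * R₀) ≤ 2 * (C * x * L ^ 5 / R₀) + 3 * L * E := by
    have h4 : ∑ i ∈ range j, D (2 ^ i * R₀) =
        (C * x * L ^ 5 / R₀) * ∑ i ∈ range j, (1 / 2 : ℝ) ^ i + j * E := by
      simp only [hDdef]
      rw [sum_add_distrib, sum_const, card_range, nsmul_eq_mul, mul_sum]
      congr 1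
      refine sum_congr rfl fun i _ => ?_
      push_cast
      rw [one_div_pow]
      field_simp
    rw [h4]
    have h5 : ∑ i ∈ range j, (1 / 2 : ℝ) ^ i ≤ 2 := by
      have := sum_geometric_two_le j
      simpa using this
    have h6 : 0 ≤ C * x * L ^ 5 / R₀ := by positivity
    have h7 := mul_le_mul_of_nonneg_left h5 h6
    have h8 := mul_le_mul_of_nonneg_right hjL hE0
    linarith
  exact h2.trans h3

/-- conductors between `(log x)^(A+5)` and `x^(1/2)/(log x)^(4A+28)` -/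
theorem high_full (A : ℕ) : ∃ C : ℝ, 0 < C ∧ ∀ (x Q R₀ : ℕ), 3 ≤ x →
    (Q : ℝ) * (Real.log x) ^ (4 * A + 24) ≤ Real.sqrt x → (Real.log x) ^ (A + 5) ≤ R₀ →
    ∑ r ∈ Ioc R₀ Q, (1 : ℝ) / r.totient * ∑ χ ∈ prim r, ‖psiC χ x‖ ≤
      C * x / (Real.log x) ^ A := by
  obtain ⟨C, hC, hgen⟩ := high_gen
  set K : ℝ := (100 * (2 * A + 12 : ℕ) : ℝ) ^ (2 * A + 12) with hK
  have hK1 : 1 ≤ K := by
    rw [hK]
    refine one_le_pow₀ ?_
    push_cast
    have : (0 : ℝ) ≤ A := Nat.cast_nonneg A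
    linarith
  refine ⟨2 * C + 3 * (C * (12 * K + 4) + 32), by positivity, ?_⟩
  intro x Q R₀ hx hQ hR
  have hxR : (3 : ℝ) ≤ x := by exact_mod_cast hx
  have hx0 : (0 : ℝ) < x := by linarith
  have hx1 : (1 : ℝ) ≤ x := by linarith
  set L : ℝ := Real.log x with hL
  have hL1 : 1 ≤ L := by
    rw [hL, Real.le_log_iff_exp_le hx0]
    have := Real.exp_one_lt_d9
    linarith
  have hL0 : 0 < L := by linarith
  have hlog := high_log_pow (2 * A + 12) (by omega) x hx1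
  rw [← hK, ← hL] at hlog
  have hR1 : (1 : ℝ) ≤ R₀ := (one_le_pow₀ hL1).trans hR
  have hR1' : 1 ≤ R₀ := by exact_mod_cast hR1
  have hsx1 : (1 : ℝ) ≤ Real.sqrt x := by
    rw [← Real.sqrt_one]; exact Real.sqrt_le_sqrt hx1
  have hsx0 : (0 : ℝ) < Real.sqrt x := by linarith
  have hsxx : Real.sqrt x * Real.sqrt x = x := Real.mul_self_sqrt hx0.le
  have hLp : ∀ k : ℕ, 1 ≤ L ^ k := fun k => one_le_pow₀ hL1
  have hQs : (Q : ℝ) ≤ Real.sqrt x := by
    refine le_trans ?_ hQ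
    exact le_mul_of_one_le_right (Nat.cast_nonneg _) (hLp _)
  have hQx : Q ≤ x := by
    have : (Q : ℝ) ≤ x := by nlinarith
    exact_mod_cast this
  -- the parameter `U`
  set m : ℝ := min (L ^ (2 * A + 12)) (Real.sqrt x) with hm
  have hm1 : 1 ≤ m := le_min (hLp _) hsx1
  set U : ℕ := ⌊m⌋₊ with hU
  have hU1 : 1 ≤ U := Nat.le_floor (by simpa using hm1)
  have hUR1 : (1 : ℝ) ≤ U := by exact_mod_cast hU1
  have hUle : (U : ℝ) ≤ m := Nat.floor_le (by linarith)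
  have hUge : m ≤ 2 * U := by
    have := Nat.lt_floor_add_one m
    rw [← hU] at this
    linarith
  have hUL : (U : ℝ) ≤ L ^ (2 * A + 12) := hUle.trans (min_le_left _ _)
  have hUs : (U : ℝ) ≤ Real.sqrt x := hUle.trans (min_le_right _ _)
  have hUx : U * U ≤ x := by
    have h2 : ((U * U : ℕ) : ℝ) ≤ x := by push_cast; nlinarith
    exact_mod_cast h2
  -- `1/√U`
  have hmge : L ^ (2 * A + 12) ≤ K * m := by
    rw [hm]
    rcases le_total (L ^ (2 * A + 12)) (Real.sqrt x) with h | h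
    · rw [min_eq_left h]
      exact le_mul_of_one_le_left (by positivity) hK1
    · rw [min_eq_right h]
      refine hlog.trans ?_
      refine mul_le_mul_of_nonneg_left ?_ (by linarith)
      rw [Real.sqrt_eq_rpow]
      exact Real.rpow_le_rpow_of_exponent_le hx1 (by norm_num)
  have hsU : L ^ (A + 6) ≤ 2 * K * Real.sqrt U := by
    have h1 : (L ^ (A + 6)) ^ 2 ≤ (2 * K * Real.sqrt U) ^ 2 := by
      have e1 : (2 * K * Real.sqrt U) ^ 2 = 4 * K ^ 2 * U := by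
        rw [mul_pow, Real.sq_sqrt (by positivity)]; ring
      have e2 : (L ^ (A + 6)) ^ 2 = L ^ (2 * A + 12) := by
        rw [← pow_mul]; congr 1; ring
      rw [e1, e2]
      have h3 : K * m ≤ K * (2 * U) := mul_le_mul_of_nonneg_left hUge (by linarith)
      have h4 : K * (2 * U) ≤ 4 * K ^ 2 * U := by nlinarith [mul_nonneg (by linarith : (0:ℝ) ≤ K) (by linarith : (0:ℝ) ≤ (U:ℝ)), mul_nonneg (mul_nonneg (by linarith : (0:ℝ) ≤ K) (by linarith : (0:ℝ) ≤ K - 1)) (by linarith : (0:ℝ) ≤ (U:ℝ))]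
      linarith
    exact le_of_sq_le_sq h1 (by positivity)
  have hsU0 : 0 < Real.sqrt U := Real.sqrt_pos.2 (by linarith)
  have h3U : 3 / Real.sqrt U ≤ 12 * K / L ^ (A + 6) := by
    rw [div_le_div_iff₀ hsU0 (by positivity)]
    nlinarith
  have h4Q : 4 * (Q : ℝ) / Real.sqrt x ≤ 4 / L ^ (A + 6) := by
    rw [div_le_div_iff₀ hsx0 (by positivity)]
    have h1 : (Q : ℝ) * L ^ (A + 6) ≤ Real.sqrt x := by
      refine le_trans ?_ hQ
      exact mul_le_mul_of_nonneg_left (pow_le_pow_right₀ hL1 (by omega)) (Nat.cast_nonneg _)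
    linarith
  have h32 : 32 * (Q : ℝ) ^ 2 * (U : ℝ) ^ 2 * L * (L ^ (A + 1)) ≤ 32 * x := by
    have h1 : (Q : ℝ) ^ 2 * L ^ (8 * A + 48) ≤ x := by
      have h2 : ((Q : ℝ) * L ^ (4 * A + 24)) ^ 2 ≤ Real.sqrt x ^ 2 :=
        pow_le_pow_left₀ (by positivity) hQ 2
      rw [Real.sq_sqrt hx0.le, mul_pow, ← pow_mul] at h2
      calc (Q : ℝ) ^ 2 * L ^ (8 * A + 48) = (Q : ℝ) ^ 2 * L ^ ((4 * A + 24) * 2) := by
            congr 2; ring
        _ ≤ (x : ℝ) := h2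
    have h2 : (U : ℝ) ^ 2 * L * L ^ (A + 1) ≤ L ^ (8 * A + 48) := by
      calc (U : ℝ) ^ 2 * L * L ^ (A + 1) ≤ (L ^ (2 * A + 12)) ^ 2 * L * L ^ (A + 1) := by gcongr
        _ = L ^ (5 * A + 26) := by
            rw [← pow_mul, ← pow_succ, ← pow_add]; congr 1; ring
        _ ≤ L ^ (8 * A + 48) := pow_le_pow_right₀ hL1 (by omega)
    calc 32 * (Q : ℝ) ^ 2 * (U : ℝ) ^ 2 * L * (L ^ (A + 1))
        = 32 * ((Q : ℝ) ^ 2 * ((U : ℝ) ^ 2 * L * L ^ (A + 1))) := by ring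
      _ ≤ 32 * ((Q : ℝ) ^ 2 * L ^ (8 * A + 48)) := by gcongr
      _ ≤ 32 * x := by linarith
  have h := hgen x Q R₀ U hx hU1 hUx hR1' hQx
  rw [← hL] at h
  refine h.trans ?_
  have e1 : C * x * L ^ 5 / R₀ ≤ C * x / L ^ A := by
    rw [div_le_div_iff₀ (by linarith) (by positivity)]
    calc C * x * L ^ 5 * L ^ A = C * x * L ^ (A + 5) := by ring
      _ ≤ C * x * R₀ := by gcongr
  have e2 : 3 * L * (C * x * L ^ 5 * (3 / Real.sqrt U + 4 * Q / Real.sqrt x)) ≤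
      3 * (C * (12 * K + 4)) * x / L ^ A := by
    have e3 : 3 / Real.sqrt U + 4 * Q / Real.sqrt x ≤ (12 * K + 4) / L ^ (A + 6) := by
      rw [add_div]; linarith
    calc 3 * L * (C * x * L ^ 5 * (3 / Real.sqrt U + 4 * Q / Real.sqrt x))
        ≤ 3 * L * (C * x * L ^ 5 * ((12 * K + 4) / L ^ (A + 6))) := by gcongr
      _ = 3 * (C * (12 * K + 4)) * x / L ^ A := by
          rw [pow_add L A 6]; field_simp
  have e4 : 3 * L * (32 * (Q : ℝ) ^ 2 * (U : ℝ) ^ 2 * L) ≤ 3 * 32 * x / L ^ A := by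
    rw [le_div_iff₀ (by positivity)]
    calc 3 * L * (32 * (Q : ℝ) ^ 2 * (U : ℝ) ^ 2 * L) * L ^ A
        = 3 * (32 * (Q : ℝ) ^ 2 * (U : ℝ) ^ 2 * L * (L ^ (A + 1))) := by ring
      _ ≤ 3 * (32 * (x : ℝ)) := by gcongr
      _ = 3 * 32 * (x : ℝ) := by ring
  calc 2 * (C * x * L ^ 5 / R₀) + 3 * L * (C * x * L ^ 5 * (3 / Real.sqrt U + 4 * Q / Real.sqrt x) +
        32 * (Q : ℝ) ^ 2 * (U : ℝ) ^ 2 * L)
      = 2 * (C * x * L ^ 5 / R₀) + 3 * L * (C * x * L ^ 5 * (3 / Real.sqrt U + 4 * Q / Real.sqrt x)) +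
        3 * L * (32 * (Q : ℝ) ^ 2 * (U : ℝ) ^ 2 * L) := by ring
    _ ≤ 2 * (C * x / L ^ A) + 3 * (C * (12 * K + 4)) * x / L ^ A + 3 * 32 * x / L ^ A := by linarith
    _ = (2 * C + 3 * (C * (12 * K + 4) + 32)) * x / L ^ A := by ring

/-- **Bombieri-Vinogradov**, level `x^(1/2)/(log x)^(4A+28)` -/
theorem bv_full (A : ℕ) : ∃ C : ℝ, 0 < C ∧ ∀ (x Q : ℕ) (a : ℕ → ℕ), 3 ≤ x →
    (Q : ℝ) * (Real.log x) ^ (4 * A + 28) ≤ Real.sqrt x → (∀ q ∈ Icc 1 Q, (a q).Coprime q) →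
    ∑ q ∈ Icc 1 Q, |psiA q (a q) x - psi x / q.totient| ≤ C * x / (Real.log x) ^ A := by
  obtain ⟨Cr, hCr, hr⟩ := reduce
  obtain ⟨Ch, hCh, hh⟩ := high_full (A + 1)
  obtain ⟨Cs, hCs, hs⟩ := siegel_walfisz (2 * A + 8) (A + 36)
  refine ⟨2 * Cr * Cs + Cr * Ch + Cr, by positivity, ?_⟩
  intro x Q a hx hQ ha
  have hxR : (3 : ℝ) ≤ x := by exact_mod_cast hx
  have hx0 : (0 : ℝ) < x := by linarith
  have hx1 : (1 : ℝ) ≤ x := by linarith
  set L : ℝ := Real.log x with hL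
  have hL1' : 103 / 100 ≤ L := by
    have h1 : Real.log 3 ≤ L := Real.log_le_log (by norm_num) hxR
    have h2 : 3 * Real.log 2 ≤ 2 * Real.log 3 := by
      rw [← Real.log_rpow (by norm_num), ← Real.log_rpow (by norm_num)]
      exact Real.log_le_log (by positivity) (by norm_num)
    have := Real.log_two_gt_d9
    linarith
  have hL1 : 1 ≤ L := by linarith
  have hL0 : 0 < L := by linarith
  have hLp : ∀ k : ℕ, 1 ≤ L ^ k := fun k => one_le_pow₀ hL1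
  have hsx1 : (1 : ℝ) ≤ Real.sqrt x := by
    rw [← Real.sqrt_one]; exact Real.sqrt_le_sqrt hx1
  have hsxx : Real.sqrt x * Real.sqrt x = x := Real.mul_self_sqrt hx0.le
  set R₀ : ℕ := ⌈L ^ (A + 6)⌉₊ with hR₀
  have hRge : L ^ (A + 6) ≤ R₀ := Nat.le_ceil _
  have hRle : (R₀ : ℝ) ≤ 2 * L ^ (A + 6) := by
    have := Nat.ceil_lt_add_one (show 0 ≤ L ^ (A + 6) by positivity)
    rw [← hR₀] at this
    linarith [hLp (A + 6)]
  have hRle2 : (R₀ : ℝ) ≤ L ^ (A + 36) := by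
    refine hRle.trans ?_
    have h2 : (2 : ℝ) ≤ L ^ 30 := by
      calc (2 : ℝ) ≤ (103 / 100) ^ 30 := by norm_num
        _ ≤ L ^ 30 := pow_le_pow_left₀ (by norm_num) hL1' 30
    calc 2 * L ^ (A + 6) ≤ L ^ 30 * L ^ (A + 6) := by gcongr
      _ = L ^ (A + 36) := by ring
  have hQs : (Q : ℝ) ≤ Real.sqrt x := by
    refine le_trans ?_ hQ
    exact le_mul_of_one_le_right (Nat.cast_nonneg _) (hLp _)
  have hQx : Q ≤ x := by
    have : (Q : ℝ) ≤ x := by nlinarith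
    exact_mod_cast this
  have hf0 : ∀ r : ℕ, 0 ≤ (1 : ℝ) / r.totient * ∑ χ ∈ prim r, ‖psiC χ x‖ := fun r =>
    mul_nonneg (by positivity) (sum_nonneg fun _ _ => norm_nonneg _)
  have h1 : ∑ r ∈ Ioc 1 Q, (1 : ℝ) / r.totient * ∑ χ ∈ prim r, ‖psiC χ x‖ ≤
      ∑ r ∈ Ioc 1 R₀, (1 : ℝ) / r.totient * ∑ χ ∈ prim r, ‖psiC χ x‖ +
      ∑ r ∈ Ioc R₀ Q, (1 : ℝ) / r.totient * ∑ χ ∈ prim r, ‖psiC χ x‖ := by
    rw [← sum_union]
    · refine sum_le_sum_of_subset_of_nonneg ?_ (fun r _ _ => hf0 r)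
      intro r hr
      rw [mem_union, mem_Ioc, mem_Ioc]
      rw [mem_Ioc] at hr
      by_cases h : r ≤ R₀
      · exact Or.inl ⟨hr.1, h⟩
      · exact Or.inr ⟨by omega, hr.2⟩
    · rw [disjoint_left]
      intro r hr hr'
      rw [mem_Ioc] at hr hr'
      omega
  have h2 : ∑ r ∈ Ioc 1 R₀, (1 : ℝ) / r.totient * ∑ χ ∈ prim r, ‖psiC χ x‖ ≤
      2 * Cs * x / L ^ (A + 2) := by
    have h3 : ∀ r ∈ Ioc 1 R₀, (1 : ℝ) / r.totient * ∑ χ ∈ prim r, ‖psiC χ x‖ ≤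
        Cs * x / L ^ (2 * A + 8) := by
      intro r hr
      obtain ⟨hr1, hr2⟩ := mem_Ioc.1 hr
      have hφ : (0 : ℝ) < r.totient := by exact_mod_cast Nat.totient_pos.2 (by omega)
      have h4 : ∑ χ ∈ prim r, ‖psiC χ x‖ ≤ r.totient * (Cs * x / L ^ (2 * A + 8)) := by
        calc ∑ χ ∈ prim r, ‖psiC χ x‖ ≤ ∑ χ ∈ prim r, Cs * x / L ^ (2 * A + 8) := by
              refine sum_le_sum fun χ hχ => hs x hx r hr1 ?_ χ hχ
              refine le_trans ?_ hRle2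
              exact_mod_cast hr2
          _ = (prim r).card * (Cs * x / L ^ (2 * A + 8)) := by rw [sum_const, nsmul_eq_mul]
          _ ≤ r.totient * (Cs * x / L ^ (2 * A + 8)) := by
              refine mul_le_mul_of_nonneg_right ?_ (by positivity)
              exact_mod_cast card_prim_le r (by omega)
      calc (1 : ℝ) / r.totient * ∑ χ ∈ prim r, ‖psiC χ x‖
          ≤ (1 : ℝ) / r.totient * (r.totient * (Cs * x / L ^ (2 * A + 8))) :=
            mul_le_mul_of_nonneg_left h4 (by positivity)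
        _ = _ := by field_simp
    refine (sum_le_sum h3).trans ?_
    rw [sum_const, Nat.card_Ioc, nsmul_eq_mul]
    have h5 : ((R₀ - 1 : ℕ) : ℝ) ≤ 2 * L ^ (A + 6) := by
      refine le_trans ?_ hRle
      exact_mod_cast Nat.sub_le _ _
    calc ((R₀ - 1 : ℕ) : ℝ) * (Cs * x / L ^ (2 * A + 8))
        ≤ (2 * L ^ (A + 6)) * (Cs * x / L ^ (2 * A + 8)) :=
          mul_le_mul_of_nonneg_right h5 (by positivity)
      _ = 2 * Cs * x / L ^ (A + 2) := by
          have : L ^ (2 * A + 8) = L ^ (A + 6) * L ^ (A + 2) := by ring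
          rw [this]
          field_simp
  have hQ' : (Q : ℝ) * L ^ (4 * (A + 1) + 24) ≤ Real.sqrt x := by
    have e : 4 * (A + 1) + 24 = 4 * A + 28 := by ring
    rw [e]; exact hQ
  have h3 := hh x Q R₀ hx (by rw [← hL]; exact hQ') (by rw [← hL]; exact hRge)
  rw [← hL] at h3
  have h4 := hr x Q a hx hQx ha
  rw [← hL] at h4
  have h5 : Cr * L * ∑ r ∈ Ioc 1 Q, (1 : ℝ) / r.totient * ∑ χ ∈ prim r, ‖psiC χ x‖ ≤
      Cr * L * (2 * Cs * x / L ^ (A + 2) + Ch * x / L ^ (A + 1)) := by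
    refine mul_le_mul_of_nonneg_left ?_ (by positivity)
    linarith
  have h6 : Cr * L * (2 * Cs * x / L ^ (A + 2) + Ch * x / L ^ (A + 1)) ≤
      (2 * Cr * Cs + Cr * Ch) * x / L ^ A := by
    have e1 : Cr * L * (2 * Cs * x / L ^ (A + 2)) ≤ 2 * Cr * Cs * x / L ^ A := by
      have : Cr * L * (2 * Cs * x / L ^ (A + 2)) = 2 * Cr * Cs * x / L ^ (A + 1) := by
        rw [pow_succ, pow_succ]; field_simp
      rw [this]
      refine div_le_div_of_nonneg_left (by positivity) (by positivity) ?_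
      exact pow_le_pow_right₀ hL1 (by omega)
    have e2 : Cr * L * (Ch * x / L ^ (A + 1)) = Cr * Ch * x / L ^ A := by
      rw [pow_succ]; field_simp
    have e3 : (2 * Cr * Cs + Cr * Ch) * x / L ^ A =
        2 * Cr * Cs * x / L ^ A + Cr * Ch * x / L ^ A := by ring
    rw [mul_add, e2, e3]
    linarith
  have h7 : Cr * Q * L ^ 2 ≤ Cr * x / L ^ A := by
    rw [le_div_iff₀ (by positivity)]
    calc Cr * Q * L ^ 2 * L ^ A = Cr * (Q * L ^ (A + 2)) := by ring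
      _ ≤ Cr * (Q * L ^ (4 * A + 28)) := by
          refine mul_le_mul_of_nonneg_left ?_ hCr.le
          exact mul_le_mul_of_nonneg_left (pow_le_pow_right₀ hL1 (by omega)) (Nat.cast_nonneg _)
      _ ≤ Cr * Real.sqrt x := by gcongr
      _ ≤ Cr * x := by
          refine mul_le_mul_of_nonneg_left ?_ hCr.le
          nlinarith
  calc ∑ q ∈ Icc 1 Q, |psiA q (a q) x - psi x / q.totient|
      ≤ (2 * Cr * Cs + Cr * Ch) * x / L ^ A + Cr * x / L ^ A := by linarith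
    _ = (2 * Cr * Cs + Cr * Ch + Cr) * x / L ^ A := by ring

end Pool.Agent.BV
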