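import Pool.Agent.Work.MP_d3dd4c_nt.BVFull
import Pool.Agent.Work.Shared.PNT.Tauber

/-! # Primes in residue classes: counting from `ψ` -/

namespace Pool.Agent.D3

open Finset Pool.Agent.BV
open scoped ArithmeticFunction.vonMangoldt

noncomputable section

/-- primes in `(y, x]`, congruent to `1` mod `q` -/
def pr (q y x : ℕ) : Finset ℕ := (Ioc y x).filter (fun p => p.Prime ∧ p ≡ 1 [MOD q])

theorem psi_eq (y : ℕ) : psi y = Chebyshev.psi (y : ℝ) := by
  unfold psi Chebyshev.psi
  rw [Nat.floor_natCast]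
  apply sum_congr _ (fun _ _ => rfl)
  ext n
  simp
  omega

theorem nonprime_sum (x : ℕ) (hx : 1 ≤ x) :
    ∑ n ∈ Icc 1 x, (if n.Prime then 0 else Λ n) ≤ 2 * Real.sqrt x * Real.log x := by
  have hx' : (1 : ℝ) ≤ x := by exact_mod_cast hx
  have h := Chebyshev.psi_sub_theta_le hx'
  refine le_trans (le_of_eq ?_) h
  unfold Chebyshev.psi Chebyshev.theta
  rw [Nat.floor_natCast, sum_filter, ← sum_sub_distrib]
  have e : Icc 1 x = Ioc 0 x := by ext n; simp; omega
  rw [e]
  refine sum_congr rfl fun n _ => ?_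
  by_cases h2 : n.Prime
  · simp [h2, ArithmeticFunction.vonMangoldt_apply_prime h2]
  · simp [h2]

theorem psiA_diff_le (q y x : ℕ) (hx : 1 ≤ x) (hyx : y ≤ x) :
    psiA q 1 x - psiA q 1 y ≤ Real.log x * (pr q y x).card + 2 * Real.sqrt x * Real.log x := by
  have hx' : (1 : ℝ) ≤ x := by exact_mod_cast hx
  have hlog : 0 ≤ Real.log x := Real.log_nonneg hx'
  have h1 : psiA q 1 x - psiA q 1 y = ∑ n ∈ Ioc y x, if n ≡ 1 [MOD q] then Λ n else 0 := by
    unfold psiA
    rw [sum_filter, sum_filter]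
    have e1 : Icc 1 x = Ioc 0 x := by ext n; simp; omega
    have e2 : Icc 1 y = Ioc 0 y := by ext n; simp; omega
    rw [e1, e2, ← sum_Ioc_consecutive _ (Nat.zero_le y) hyx]
    ring
  have h2 : ∀ n ∈ Ioc y x, (if n ≡ 1 [MOD q] then Λ n else 0) ≤
      (if n.Prime ∧ n ≡ 1 [MOD q] then Real.log x else 0) + (if n.Prime then 0 else Λ n) := by
    intro n hn
    have hn2 := (mem_Ioc.1 hn)
    by_cases hp : n.Prime
    · by_cases hq : n ≡ 1 [MOD q]
      · simp only [hp, hq, and_self, if_true, add_zero]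
        rw [ArithmeticFunction.vonMangoldt_apply_prime hp]
        exact Real.log_le_log (by exact_mod_cast hp.pos) (by exact_mod_cast hn2.2)
      · simp [hp, hq]
    · by_cases hq : n ≡ 1 [MOD q]
      · simp [hp, hq]
      · simp only [hp, hq, and_self, if_false, zero_add]
        exact ArithmeticFunction.vonMangoldt_nonneg
  have h3 : ∑ n ∈ Ioc y x, (if n.Prime ∧ n ≡ 1 [MOD q] then Real.log x else 0) =
      Real.log x * (pr q y x).card := by
    rw [← sum_filter, sum_const, nsmul_eq_mul, mul_comm]; rfl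
  have h4 : ∑ n ∈ Ioc y x, (if n.Prime then 0 else Λ n) ≤
      ∑ n ∈ Icc 1 x, (if n.Prime then 0 else Λ n) := by
    refine sum_le_sum_of_subset_of_nonneg ?_ ?_
    · intro n hn
      have := mem_Ioc.1 hn
      exact mem_Icc.2 ⟨by omega, this.2⟩
    · intro n _ _
      split_ifs
      · exact le_rfl
      · exact ArithmeticFunction.vonMangoldt_nonneg
  rw [h1]
  refine (sum_le_sum h2).trans ?_
  rw [sum_add_distrib, h3]
  have := nonprime_sum x hx
  linarith

/-- the error in the Bombieri-Vinogradov theorem, residue class `1` -/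
def er (x q : ℕ) : ℝ := |psiA q 1 x - psi x / q.totient|

theorem er_nonneg (x q : ℕ) : 0 ≤ er x q := abs_nonneg _

theorem bv_er (A : ℕ) : ∃ C : ℝ, 0 < C ∧ ∀ (x Q : ℕ), 3 ≤ x →
    (Q : ℝ) * (Real.log x) ^ (4 * A + 28) ≤ Real.sqrt x →
    ∑ q ∈ Icc 1 Q, er x q ≤ C * x / (Real.log x) ^ A := by
  obtain ⟨C, hC, h⟩ := bv_full A
  exact ⟨C, hC, fun x Q hx hQ => h x Q (fun _ => 1) hx hQ (fun q _ => Nat.coprime_one_left q)⟩

/-- lower bound for the number of primes `≡ 1` mod `q` in `(y, x]` -/
theorem pr_lower (q y x : ℕ) (hq : 1 ≤ q) (hx : 1 ≤ x) (hyx : y ≤ x) :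
    (psi x - psi y) / q - er x q - er y q - 2 * Real.sqrt x * Real.log x ≤
      Real.log x * (pr q y x).card := by
  have h1 := psiA_diff_le q y x hx hyx
  have hφ : (0 : ℝ) < q.totient := by exact_mod_cast Nat.totient_pos.2 (by omega)
  have hφq : (q.totient : ℝ) ≤ q := by exact_mod_cast Nat.totient_le q
  have h2 : psi x / q.totient - er x q ≤ psiA q 1 x := by
    have := neg_abs_le (psiA q 1 x - psi x / q.totient)
    unfold er; linarith
  have h3 : psiA q 1 y ≤ psi y / q.totient + er y q := by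
    have := le_abs_self (psiA q 1 y - psi y / q.totient)
    unfold er; linarith
  have hmono : psi y ≤ psi x := by
    unfold psi
    refine sum_le_sum_of_subset_of_nonneg (Icc_subset_Icc_right hyx) ?_
    intro n _ _
    exact ArithmeticFunction.vonMangoldt_nonneg
  have h4 : (psi x - psi y) / q ≤ (psi x - psi y) / q.totient :=
    div_le_div_of_nonneg_left (by linarith) hφ hφq
  rw [sub_div] at h4
  have h5 : psi x / q - psi y / q = (psi x - psi y) / q := by ring
  have h6 : psi x / q.totient - psi y / q.totient = (psi x - psi y) / q.totient := by ring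
  have h7 := div_le_div_of_nonneg_left (show 0 ≤ psi x - psi y by linarith) hφ hφq
  linarith

end

end Pool.Agent.D3
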