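import Pool.Agent.Work.MP_d3dd4c_nt.Basic

/-! # The combinatorial part: triples `(l, p, q)` and the values `(p^2-1)/(q-1)` -/

namespace Pool.Agent.D3

open Finset Pool.Agent.BV

noncomputable section

/-- the quotient `k = (p-1)/l` -/
def kk (l p : ℕ) : ℕ := (p - 1) / l
/-- `a = (q-1)/k` -/
def aa (l p q : ℕ) : ℕ := (q - 1) / kk l p
/-- `d = l (p+1)` -/
def dd (l p : ℕ) : ℕ := l * (p + 1)

/-- the triples `(l, p, q)` -/
def T (H P₁ P x₁ x₂ : ℕ) : Finset (ℕ × ℕ × ℕ) :=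
  (Ioc H (2 * H) ×ˢ (Ioc P₁ P ×ˢ Ioc x₁ x₂)).filter
    (fun t => (t.2.1.Prime ∧ t.2.1 ≡ 1 [MOD t.1]) ∧ (t.2.2.Prime ∧ t.2.2 ≡ 1 [MOD kk t.1 t.2.1]))

/-- the triples with a small gcd -/
def Tg (G H P₁ P x₁ x₂ : ℕ) : Finset (ℕ × ℕ × ℕ) :=
  (T H P₁ P x₁ x₂).filter (fun t => Nat.gcd (dd t.1 t.2.1) (aa t.1 t.2.1 t.2.2) ≤ G)

/-- the triples with a large gcd -/
def Tb (G H P₁ P x₁ x₂ : ℕ) : Finset (ℕ × ℕ × ℕ) :=
  (T H P₁ P x₁ x₂).filter (fun t => ¬ Nat.gcd (dd t.1 t.2.1) (aa t.1 t.2.1 t.2.2) ≤ G)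

/-- the value -/
def val (t : ℕ × ℕ × ℕ) : ℚ := ((t.2.1 : ℚ) ^ 2 - 1) / ((t.2.2 : ℚ) - 1)

theorem card_T (H P₁ P x₁ x₂ : ℕ) : (T H P₁ P x₁ x₂).card =
    ∑ l ∈ Ioc H (2 * H), ∑ p ∈ pr l P₁ P, (pr (kk l p) x₁ x₂).card := by
  unfold T
  rw [card_filter, sum_product]
  refine sum_congr rfl fun l _ => ?_
  rw [sum_product]
  unfold pr
  rw [sum_filter]
  refine sum_congr rfl fun p _ => ?_
  by_cases h : p.Prime ∧ p ≡ 1 [MOD l]
  · rw [if_pos h, card_filter]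
    refine sum_congr rfl fun q _ => ?_
    simp only [h, true_and, and_self]
  · rw [if_neg h]
    apply sum_eq_zero
    intro q _
    rw [if_neg]
    exact fun h' => h h'.1

/-- basic facts on `l, p` -/
theorem kk_facts {H P₁ P l p : ℕ} (hl : l ∈ Ioc H (2 * H)) (hp : p ∈ pr l P₁ P) :
    1 ≤ kk l p ∧ l * kk l p = p - 1 ∧ 2 ≤ p ∧ 1 ≤ l := by
  unfold pr at hp
  rw [mem_filter, mem_Ioc] at hp
  obtain ⟨_, hpp, hmod⟩ := hp
  have hl1 : 1 ≤ l := by have := (mem_Ioc.1 hl).1; omega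
  have hp2 := hpp.two_le
  have hdvd : l ∣ p - 1 := (Nat.modEq_iff_dvd' (by omega)).1 hmod.symm
  have h1 : l * kk l p = p - 1 := Nat.mul_div_cancel' hdvd
  refine ⟨?_, h1, hp2, hl1⟩
  by_contra h
  have : kk l p = 0 := by omega
  rw [this] at h1
  omega

theorem aa_facts {k q x₁ x₂ : ℕ} (hq : q ∈ pr k x₁ x₂) :
    k * ((q - 1) / k) = q - 1 ∧ 2 ≤ q := by
  unfold pr at hq
  rw [mem_filter, mem_Ioc] at hq
  obtain ⟨_, hpp, hmod⟩ := hq
  have hq2 := hpp.two_le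
  exact ⟨Nat.mul_div_cancel' ((Nat.modEq_iff_dvd' (by omega)).1 hmod.symm), hq2⟩

theorem mem_T_facts {H P₁ P x₁ x₂ : ℕ} {t : ℕ × ℕ × ℕ} (ht : t ∈ T H P₁ P x₁ x₂) :
    t.1 ∈ Ioc H (2 * H) ∧ t.2.1 ∈ pr t.1 P₁ P ∧ t.2.2 ∈ pr (kk t.1 t.2.1) x₁ x₂ := by
  unfold T at ht
  rw [mem_filter, mem_product, mem_product] at ht
  unfold pr
  rw [mem_filter, mem_filter]
  tauto

theorem mem_T_facts2 {H P₁ P x₁ x₂ : ℕ} (hx : x₂ ≤ P₁ ^ 2) {t : ℕ × ℕ × ℕ}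
    (ht : t ∈ T H P₁ P x₁ x₂) :
    1 ≤ kk t.1 t.2.1 ∧ t.1 * kk t.1 t.2.1 = t.2.1 - 1 ∧ 2 ≤ t.2.1 ∧ 1 ≤ t.1 ∧
      kk t.1 t.2.1 * aa t.1 t.2.1 t.2.2 = t.2.2 - 1 ∧ 2 ≤ t.2.2 ∧ 1 ≤ aa t.1 t.2.1 t.2.2 ∧
      aa t.1 t.2.1 t.2.2 ≤ dd t.1 t.2.1 := by
  obtain ⟨h1, h2, h3⟩ := mem_T_facts ht
  obtain ⟨a1, a2, a3, a4⟩ := kk_facts h1 h2
  obtain ⟨b1, b2⟩ := aa_facts h3
  have hqx : t.2.2 ≤ x₂ := by
    unfold pr at h3
    rw [mem_filter, mem_Ioc] at h3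
    exact h3.1.2
  have hpP : P₁ < t.2.1 := by
    unfold pr at h2
    rw [mem_filter, mem_Ioc] at h2
    exact h2.1.1
  refine ⟨a1, a2, a3, a4, b1, b2, ?_, ?_⟩
  · by_contra h
    have h0 : aa t.1 t.2.1 t.2.2 = 0 := by omega
    have : (t.2.2 - 1) / kk t.1 t.2.1 = 0 := h0
    rw [this] at b1
    omega
  · have e1 : kk t.1 t.2.1 * dd t.1 t.2.1 = (t.2.1 - 1) * (t.2.1 + 1) := by
      unfold dd
      calc kk t.1 t.2.1 * (t.1 * (t.2.1 + 1)) = (t.1 * kk t.1 t.2.1) * (t.2.1 + 1) := by ring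
        _ = _ := by rw [a2]
    have e2 : t.2.2 - 1 ≤ (t.2.1 - 1) * (t.2.1 + 1) := by
      have : t.2.2 ≤ t.2.1 ^ 2 := hqx.trans (hx.trans (Nat.pow_le_pow_left hpP.le 2))
      obtain ⟨s, hs⟩ : ∃ s, t.2.1 = s + 1 := ⟨t.2.1 - 1, by omega⟩
      rw [hs] at this ⊢
      have e3 : (s + 1 - 1) * (s + 1 + 1) = (s + 1) ^ 2 - 1 := by
        have : (s + 1) ^ 2 = s * (s + 2) + 1 := by ring
        rw [this]; simp
      rw [e3]; omega
    have e3 : kk t.1 t.2.1 * aa t.1 t.2.1 t.2.2 ≤ kk t.1 t.2.1 * dd t.1 t.2.1 := by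
      rw [e1]; unfold aa; rw [b1]; exact e2
    exact Nat.le_of_mul_le_mul_left e3 a1

theorem val_eq {H P₁ P x₁ x₂ : ℕ} (hx : x₂ ≤ P₁ ^ 2) {t : ℕ × ℕ × ℕ}
    (ht : t ∈ T H P₁ P x₁ x₂) :
    val t = (dd t.1 t.2.1 : ℚ) / (aa t.1 t.2.1 t.2.2 : ℚ) := by
  obtain ⟨a1, a2, a3, a4, b1, b2, b3, b4⟩ := mem_T_facts2 hx ht
  unfold val
  have c1 : (t.2.1 : ℚ) = t.1 * kk t.1 t.2.1 + 1 := by
    have : t.2.1 = t.1 * kk t.1 t.2.1 + 1 := by omega
    exact_mod_cast this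
  have c2 : (t.2.2 : ℚ) = kk t.1 t.2.1 * aa t.1 t.2.1 t.2.2 + 1 := by
    have : t.2.2 = kk t.1 t.2.1 * aa t.1 t.2.1 t.2.2 + 1 := by omega
    exact_mod_cast this
  have c3 : (kk t.1 t.2.1 : ℚ) ≠ 0 := by
    have : kk t.1 t.2.1 ≠ 0 := by omega
    exact_mod_cast this
  have c4 : (aa t.1 t.2.1 t.2.2 : ℚ) ≠ 0 := by
    have : aa t.1 t.2.1 t.2.2 ≠ 0 := by omega
    exact_mod_cast this
  have c5 : (t.2.2 : ℚ) - 1 ≠ 0 := by
    rw [c2, add_sub_cancel_right]; exact mul_ne_zero c3 c4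
  rw [div_eq_div_iff c5 c4, c2]
  unfold dd
  push_cast
  rw [add_sub_cancel_right]
  have : ((t.2.1 : ℚ) ^ 2 - 1) = (t.1 * kk t.1 t.2.1) * (t.2.1 + 1) := by
    have : (t.1 : ℚ) * kk t.1 t.2.1 = t.2.1 - 1 := by rw [c1]; ring
    rw [this]; ring
  rw [this]
  ring

/-- equal fractions with equal gcd -/
theorem frac_unique {d a d' a' : ℕ} (ha : 0 < a) (ha' : 0 < a') (hd : 0 < d) (hd' : 0 < d')
    (h : d * a' = d' * a) (hg : Nat.gcd d a = Nat.gcd d' a') : d = d' ∧ a = a' := by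
  obtain ⟨g, u, v, hg0, huv, e1, e2⟩ := Nat.exists_coprime' (Nat.gcd_pos_of_pos_left a hd)
  obtain ⟨g', u', v', hg0', huv', e1', e2'⟩ :=
    Nat.exists_coprime' (Nat.gcd_pos_of_pos_left a' hd')
  have eg : Nat.gcd d a = g := by
    rw [e1, e2, Nat.gcd_mul_right, huv.gcd_eq_one, one_mul]
  have eg' : Nat.gcd d' a' = g' := by
    rw [e1', e2', Nat.gcd_mul_right, huv'.gcd_eq_one, one_mul]
  have egg : g' = g := by rw [← eg, ← eg', hg]
  subst egg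
  have h2 : u * v' = u' * v := by
    have h3 : (u * v') * (g' * g') = (u' * v) * (g' * g') := by
      rw [e1, e2, e1', e2'] at h
      calc (u * v') * (g' * g') = u * g' * (v' * g') := by ring
        _ = u' * g' * (v * g') := h
        _ = _ := by ring
    exact Nat.eq_of_mul_eq_mul_right (Nat.mul_pos hg0 hg0) h3
  have h4 : u ∣ u' := by
    have : u ∣ u' * v := ⟨v', h2.symm⟩
    exact huv.dvd_of_dvd_mul_right this
  have h5 : u' ∣ u := by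
    have : u' ∣ u * v' := ⟨v, h2⟩
    exact huv'.dvd_of_dvd_mul_right this
  have h6 : u = u' := Nat.dvd_antisymm h4 h5
  have hu0 : 0 < u := by
    rcases Nat.eq_zero_or_pos u with h0 | h0
    · rw [h0] at e1; omega
    · exact h0
  have h7 : v' = v := by
    rw [← h6] at h2
    exact Nat.eq_of_mul_eq_mul_left hu0 h2
  subst h6 h7
  exact ⟨by rw [e1, e1'], by rw [e2, e2']⟩

/-- a value is taken at most `G H` times on `Tg` -/
theorem fiber_le (G H P₁ P x₁ x₂ : ℕ) (hx : x₂ ≤ P₁ ^ 2) :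
    (Tg G H P₁ P x₁ x₂).card ≤ (G * H) * ((Tg G H P₁ P x₁ x₂).image val).card := by
  refine card_le_mul_card_image _ _ ?_
  intro r _
  have hcard : (Icc 1 G ×ˢ Ioc H (2 * H)).card = G * H := by
    rw [card_product, Nat.card_Icc, Nat.card_Ioc]
    congr 1
    omega
  rw [← hcard]
  refine card_le_card_of_injOn
    (fun t => (Nat.gcd (dd t.1 t.2.1) (aa t.1 t.2.1 t.2.2), t.1)) ?_ ?_
  · intro t ht
    have ht' := (mem_filter.1 (mem_coe.1 ht)).1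
    unfold Tg at ht'
    obtain ⟨h1, h2⟩ := mem_filter.1 ht'
    obtain ⟨a1, a2, a3, a4, b1, b2, b3, b4⟩ := mem_T_facts2 hx h1
    simp only [coe_product, Set.mem_prod, mem_coe]
    refine ⟨mem_Icc.2 ⟨?_, h2⟩, (mem_T_facts h1).1⟩
    exact Nat.gcd_pos_of_pos_right _ b3
  · intro t ht t' ht' heq
    obtain ⟨h0, hr⟩ := mem_filter.1 (mem_coe.1 ht)
    obtain ⟨h0', hr'⟩ := mem_filter.1 (mem_coe.1 ht')
    unfold Tg at h0 h0'
    have h1 := (mem_filter.1 h0).1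
    have h1' := (mem_filter.1 h0').1
    obtain ⟨a1, a2, a3, a4, b1, b2, b3, b4⟩ := mem_T_facts2 hx h1
    obtain ⟨a1', a2', a3', a4', b1', b2', b3', b4'⟩ := mem_T_facts2 hx h1'
    simp only [Prod.mk.injEq] at heq
    obtain ⟨hg, hl⟩ := heq
    have hv : val t = val t' := by rw [hr, hr']
    rw [val_eq hx h1, val_eq hx h1'] at hv
    have ha0 : (aa t.1 t.2.1 t.2.2 : ℚ) ≠ 0 := by
      have : aa t.1 t.2.1 t.2.2 ≠ 0 := by omega
      exact_mod_cast this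
    have ha0' : (aa t'.1 t'.2.1 t'.2.2 : ℚ) ≠ 0 := by
      have : aa t'.1 t'.2.1 t'.2.2 ≠ 0 := by omega
      exact_mod_cast this
    rw [div_eq_div_iff ha0 ha0'] at hv
    have hv' : dd t.1 t.2.1 * aa t'.1 t'.2.1 t'.2.2 = dd t'.1 t'.2.1 * aa t.1 t.2.1 t.2.2 := by
      exact_mod_cast hv
    have hd : 0 < dd t.1 t.2.1 := by unfold dd; exact Nat.mul_pos (by omega) (by omega)
    have hd' : 0 < dd t'.1 t'.2.1 := by unfold dd; exact Nat.mul_pos (by omega) (by omega)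
    obtain ⟨e1, e2⟩ := frac_unique (by omega) (by omega) hd hd' hv' hg
    have e3 : t.2.1 = t'.2.1 := by
      unfold dd at e1
      rw [hl] at e1
      have := Nat.eq_of_mul_eq_mul_left (by omega : 0 < t'.1) e1
      omega
    have e4 : t.2.2 = t'.2.2 := by
      have e5 : kk t.1 t.2.1 = kk t'.1 t'.2.1 := by rw [hl, e3]
      have : t.2.2 - 1 = t'.2.2 - 1 := by rw [← b1, ← b1', e5, e2]
      omega
    ext
    · exact hl
    · exact e3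
    · exact e4

/-- integers `a ≤ d` with a large gcd with `d` -/
theorem card_gcd_le (G d : ℕ) (hG : 1 ≤ G) :
    (((Icc 1 d).filter (fun a => ¬ Nat.gcd d a ≤ G)).card : ℝ) ≤ d.divisors.card * (d / G : ℝ) := by
  have h1 : ((Icc 1 d).filter (fun a => ¬ Nat.gcd d a ≤ G)) ⊆
      (d.divisors.filter (fun g => G < g)).biUnion
        (fun g => (Icc 1 d).filter (fun a => g ∣ a)) := by
    intro a ha
    obtain ⟨h1, h2⟩ := mem_filter.1 ha
    rw [mem_biUnion]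
    have hd : d ≠ 0 := by
      have := mem_Icc.1 h1
      omega
    refine ⟨Nat.gcd d a, ?_, ?_⟩
    · rw [mem_filter, Nat.mem_divisors]
      exact ⟨⟨Nat.gcd_dvd_left d a, hd⟩, by omega⟩
    · rw [mem_filter]
      exact ⟨h1, Nat.gcd_dvd_right d a⟩
  have h2 := (card_le_card h1).trans card_biUnion_le
  have hG0 : (0 : ℝ) < G := by exact_mod_cast hG
  have h3 : ∀ g ∈ d.divisors.filter (fun g => G < g),
      (((Icc 1 d).filter (fun a => g ∣ a)).card : ℝ) ≤ d / G := by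
    intro g hg
    obtain ⟨_, hg2⟩ := mem_filter.1 hg
    have e : (Icc 1 d).filter (fun a => g ∣ a) = (Ioc 0 d).filter (fun a => g ∣ a) := by
      congr 1
    rw [e, Nat.Ioc_filter_dvd_card_eq_div]
    calc ((d / g : ℕ) : ℝ) ≤ (d : ℝ) / g := Nat.cast_div_le
      _ ≤ d / G := by
        have : (G : ℝ) ≤ g := by exact_mod_cast hg2.le
        gcongr
  calc (((Icc 1 d).filter (fun a => ¬ Nat.gcd d a ≤ G)).card : ℝ)
      ≤ ((∑ g ∈ d.divisors.filter (fun g => G < g),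
        ((Icc 1 d).filter (fun a => g ∣ a)).card : ℕ) : ℝ) := by exact_mod_cast h2
    _ = ∑ g ∈ d.divisors.filter (fun g => G < g),
        (((Icc 1 d).filter (fun a => g ∣ a)).card : ℝ) := by push_cast; rfl
    _ ≤ ∑ g ∈ d.divisors.filter (fun g => G < g), ((d : ℝ) / G) := sum_le_sum h3
    _ = ((d.divisors.filter (fun g => G < g)).card : ℝ) * (d / G) := by
        rw [sum_const, nsmul_eq_mul]
    _ ≤ d.divisors.card * (d / G : ℝ) := by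
        have : ((d.divisors.filter (fun g => G < g)).card : ℝ) ≤ d.divisors.card := by
          exact_mod_cast card_filter_le _ _
        gcongr

theorem card_Tb (G H P₁ P x₁ x₂ : ℕ) (hG : 1 ≤ G) (hx : x₂ ≤ P₁ ^ 2) :
    ((Tb G H P₁ P x₁ x₂).card : ℝ) ≤
      ∑ l ∈ Ioc H (2 * H), ∑ p ∈ pr l P₁ P, ((dd l p).divisors.card * (dd l p / G : ℝ)) := by
  classical
  have h1 : (Tb G H P₁ P x₁ x₂) ⊆
      (Ioc H (2 * H)).biUnion (fun l => (pr l P₁ P).biUnion (fun p =>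
        ((T H P₁ P x₁ x₂).filter (fun t => (t.1 = l ∧ t.2.1 = p) ∧
          ¬ Nat.gcd (dd t.1 t.2.1) (aa t.1 t.2.1 t.2.2) ≤ G)))) := by
    intro t ht
    unfold Tb at ht
    obtain ⟨h1, h2⟩ := mem_filter.1 ht
    obtain ⟨c1, c2, _⟩ := mem_T_facts h1
    rw [mem_biUnion]
    refine ⟨t.1, c1, ?_⟩
    rw [mem_biUnion]
    exact ⟨t.2.1, c2, mem_filter.2 ⟨h1, ⟨rfl, rfl⟩, h2⟩⟩
  have h2 : ∀ l ∈ Ioc H (2 * H), ∀ p ∈ pr l P₁ P,
      (((T H P₁ P x₁ x₂).filter (fun t => (t.1 = l ∧ t.2.1 = p) ∧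
          ¬ Nat.gcd (dd t.1 t.2.1) (aa t.1 t.2.1 t.2.2) ≤ G)).card : ℝ) ≤
        (dd l p).divisors.card * (dd l p / G : ℝ) := by
    intro l _ p _
    refine le_trans ?_ (card_gcd_le G (dd l p) hG)
    have : ((T H P₁ P x₁ x₂).filter (fun t => (t.1 = l ∧ t.2.1 = p) ∧
          ¬ Nat.gcd (dd t.1 t.2.1) (aa t.1 t.2.1 t.2.2) ≤ G)).card ≤
        ((Icc 1 (dd l p)).filter (fun a => ¬ Nat.gcd (dd l p) a ≤ G)).card := by
      refine card_le_card_of_injOn (fun t => aa t.1 t.2.1 t.2.2) ?_ ?_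
      · intro t ht
        obtain ⟨h1, ⟨h2, h3⟩, h4⟩ := mem_filter.1 (mem_coe.1 ht)
        obtain ⟨a1, a2, a3, a4, b1, b2, b3, b4⟩ := mem_T_facts2 hx h1
        rw [h2, h3] at h4 b3 b4
        simp only [mem_coe]
        rw [mem_filter, mem_Icc]
        rw [h2, h3]
        exact ⟨⟨b3, b4⟩, h4⟩
      · intro t ht t' ht' heq
        obtain ⟨h1, ⟨h2, h3⟩, h4⟩ := mem_filter.1 (mem_coe.1 ht)
        obtain ⟨h1', ⟨h2', h3'⟩, h4'⟩ := mem_filter.1 (mem_coe.1 ht')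
        obtain ⟨a1, a2, a3, a4, b1, b2, b3, b4⟩ := mem_T_facts2 hx h1
        obtain ⟨a1', a2', a3', a4', b1', b2', b3', b4'⟩ := mem_T_facts2 hx h1'
        simp only at heq
        have e1 : t.1 = t'.1 := by rw [h2, h2']
        have e2 : t.2.1 = t'.2.1 := by rw [h3, h3']
        have e3 : t.2.2 - 1 = t'.2.2 - 1 := by
          rw [← b1, ← b1', heq, e1, e2]
        ext
        · exact e1
        · exact e2
        · omega
    exact_mod_cast this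
  have h3 := card_le_card h1
  have h4 : (((Ioc H (2 * H)).biUnion (fun l => (pr l P₁ P).biUnion (fun p =>
        ((T H P₁ P x₁ x₂).filter (fun t => (t.1 = l ∧ t.2.1 = p) ∧
          ¬ Nat.gcd (dd t.1 t.2.1) (aa t.1 t.2.1 t.2.2) ≤ G))))).card : ℝ) ≤
      ∑ l ∈ Ioc H (2 * H), ∑ p ∈ pr l P₁ P, (((T H P₁ P x₁ x₂).filter
        (fun t => (t.1 = l ∧ t.2.1 = p) ∧
          ¬ Nat.gcd (dd t.1 t.2.1) (aa t.1 t.2.1 t.2.2) ≤ G)).card : ℝ) := by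
    have h5 := card_biUnion_le (s := Ioc H (2 * H)) (t := fun l => (pr l P₁ P).biUnion (fun p =>
        ((T H P₁ P x₁ x₂).filter (fun t => (t.1 = l ∧ t.2.1 = p) ∧
          ¬ Nat.gcd (dd t.1 t.2.1) (aa t.1 t.2.1 t.2.2) ≤ G))))
    have h6 : ∑ l ∈ Ioc H (2 * H), ((pr l P₁ P).biUnion (fun p =>
        ((T H P₁ P x₁ x₂).filter (fun t => (t.1 = l ∧ t.2.1 = p) ∧
          ¬ Nat.gcd (dd t.1 t.2.1) (aa t.1 t.2.1 t.2.2) ≤ G)))).card ≤
        ∑ l ∈ Ioc H (2 * H), ∑ p ∈ pr l P₁ P, ((T H P₁ P x₁ x₂).filter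
        (fun t => (t.1 = l ∧ t.2.1 = p) ∧
          ¬ Nat.gcd (dd t.1 t.2.1) (aa t.1 t.2.1 t.2.2) ≤ G)).card :=
      sum_le_sum fun l _ => card_biUnion_le
    have h7 := h5.trans h6
    exact_mod_cast h7
  refine le_trans (by exact_mod_cast h3) (h4.trans ?_)
  exact sum_le_sum fun l hl => sum_le_sum fun p hp => h2 l hl p hp

end

end Pool.Agent.D3
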