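import Pool.Agent.Work.MP_d3dd4c_nt.Comb

/-! # Lower bound for the number of triples -/

namespace Pool.Agent.D3

open Finset Pool.Agent.BV Filter
open scoped ArithmeticFunction.vonMangoldt

noncomputable section

/-- prime number theorem in the form used here -/
theorem psi_close (ε : ℝ) (hε : 0 < ε) : ∃ K : ℝ, 0 < K ∧ ∀ x : ℕ, |psi x - x| ≤ ε * x + K := by
  obtain ⟨C, hC, h⟩ := Pool.Agent.Work.Shared.PNT.psi_sub_self_le 1
  -- for `log x ≥ C/ε` the bound is `ε x`
  set X : ℝ := Real.exp (C / ε) + 2 with hX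
  refine ⟨Chebyshev.psi X + X + 1, ?_, fun x => ?_⟩
  · have := Chebyshev.psi_nonneg X
    have : 0 < X := by positivity
    have := Chebyshev.psi_nonneg X
    linarith
  · rw [psi_eq]
    rcases le_or_gt X x with hx | hx
    · have hx2 : (2 : ℝ) ≤ x := by
        have := Real.exp_pos (C / ε)
        linarith
      have h1 := h x hx2
      rw [Real.rpow_one] at h1
      have hlog : C / ε ≤ Real.log x := by
        rw [Real.le_log_iff_exp_le (by linarith)]
        linarith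
      have hlog0 : 0 < Real.log x := lt_of_lt_of_le (by positivity) hlog
      have h2 : C * x / Real.log x ≤ ε * x := by
        rw [div_le_iff₀ hlog0]
        rw [div_le_iff₀ hε] at hlog
        nlinarith
      have h3 := Chebyshev.psi_nonneg X
      have h4 : 0 < X := by positivity
      linarith
    · have h0 : (0 : ℝ) ≤ x := Nat.cast_nonneg x
      have h1 : Chebyshev.psi x ≤ Chebyshev.psi X := Chebyshev.psi_mono hx.le
      have h2 := Chebyshev.psi_nonneg (x : ℝ)
      have h3 : 0 ≤ ε * x := by positivity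
      rw [abs_le]
      constructor <;> linarith [Chebyshev.psi_nonneg X]

theorem log_pow_small (k : ℕ) (c : ℝ) (hc : 0 < c) :
    ∀ᶠ P : ℕ in atTop, (Real.log P) ^ k ≤ c * Real.sqrt P := by
  have h1 : Tendsto (fun x : ℝ => (Real.log x) ^ k / Real.sqrt x) atTop (nhds 0) := by
    have := Real.isLittleO_pow_log_id_atTop (n := 2 * k)
    have h2 : Tendsto (fun x : ℝ => (Real.log x) ^ (2 * k) / x) atTop (nhds 0) := by
      have := this.tendsto_div_nhds_zero
      simpa using this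
    have h3 : Tendsto (fun x : ℝ => Real.sqrt ((Real.log x) ^ (2 * k) / x)) atTop (nhds 0) := by
      have := (Real.continuous_sqrt.tendsto 0).comp h2
      rw [Real.sqrt_zero] at this
      exact this
    refine h3.congr' ?_
    filter_upwards [eventually_ge_atTop (1 : ℝ)] with x hx
    have h0 : 0 ≤ (Real.log x) ^ (2 * k) := by rw [pow_mul]; positivity
    rw [Real.sqrt_div h0, mul_comm 2 k, pow_mul, Real.sqrt_sq]
    exact pow_nonneg (Real.log_nonneg hx) k
  have h2 : ∀ᶠ x : ℝ in atTop, (Real.log x) ^ k / Real.sqrt x < c := h1.eventually (gt_mem_nhds hc)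
  have h3 := (tendsto_natCast_atTop_atTop (R := ℝ)).eventually h2
  filter_upwards [h3, eventually_ge_atTop 1] with P hP hP1
  have hs : 0 < Real.sqrt P := Real.sqrt_pos.2 (by exact_mod_cast hP1)
  rw [div_lt_iff₀ hs] at hP
  exact hP.le

theorem log_large (M : ℝ) : ∀ᶠ P : ℕ in atTop, M ≤ Real.log P :=
  (Real.tendsto_log_atTop.comp (tendsto_natCast_atTop_atTop (R := ℝ))).eventually_ge_atTop M

/-- number of pairs `(l, p)` -/
theorem pairs_lower (s : ℝ) (hs0 : 0 < s) (hs1 : s < 1) :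
    ∀ᶠ P : ℕ in atTop, ∀ H : ℕ, (Real.log P) ^ 41 ≤ H → (H : ℝ) ≤ (Real.log P) ^ 42 →
      (1 - s) / 8 * P ≤ Real.log P * ∑ l ∈ Ioc H (2 * H), ((pr l ⌈s * P⌉₊ P).card : ℝ) := by
  obtain ⟨C, hC, hbv⟩ := bv_er 3
  obtain ⟨K, hK, hpsi⟩ := psi_close ((1 - s) / 16) (by linarith)
  have hs1' : 0 < 1 - s := by linarith
  filter_upwards [log_pow_small 82 (Real.sqrt s / 2) (by positivity),
    log_pow_small 43 ((1 - s) / 128) (by positivity), log_large (2 + 2 * |Real.log s|),
    log_large (144 * C / (1 - s)),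
    eventually_ge_atTop (⌈3 / s⌉₊ + ⌈64 * (K + 1) / (1 - s)⌉₊ + 3)] with P h82 h43 hLs hLC hP
  intro H hH1 hH2
  set L : ℝ := Real.log P with hL
  have hP3 : 3 ≤ P := by omega
  have hPR : (3 : ℝ) ≤ P := by exact_mod_cast hP3
  have hP0 : (0 : ℝ) < P := by linarith
  have habs : 0 ≤ |Real.log s| := abs_nonneg _
  have hL1 : 1 ≤ L := by linarith
  have hL0 : 0 < L := by linarith
  have hPs : 3 / s ≤ P := by
    refine (Nat.le_ceil _).trans ?_
    exact_mod_cast (by omega : ⌈3 / s⌉₊ ≤ P)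
  have hPK : 64 * (K + 1) / (1 - s) ≤ P := by
    refine (Nat.le_ceil _).trans ?_
    exact_mod_cast (by omega : ⌈64 * (K + 1) / (1 - s)⌉₊ ≤ P)
  rw [div_le_iff₀ hs0] at hPs
  rw [div_le_iff₀ hs1'] at hPK
  set P₁ : ℕ := ⌈s * P⌉₊ with hP₁
  have hP₁ge : s * P ≤ P₁ := Nat.le_ceil _
  have hP₁lt : (P₁ : ℝ) < s * P + 1 := Nat.ceil_lt_add_one (by positivity)
  have hP₁3 : 3 ≤ P₁ := by
    have : (3 : ℝ) ≤ P₁ := by linarith
    exact_mod_cast this
  have hP₁P : P₁ ≤ P := by
    have : (P₁ : ℝ) < P + 1 := by nlinarith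
    have : P₁ < P + 1 := by exact_mod_cast this
    omega
  have hP₁0 : (0 : ℝ) < P₁ := by have : (3 : ℝ) ≤ P₁ := by exact_mod_cast hP₁3
                                 linarith
  have hlogP₁ : Real.log P₁ ≤ L := Real.log_le_log hP₁0 (by exact_mod_cast hP₁P)
  have hlogP₁' : L / 2 ≤ Real.log P₁ := by
    have h1 : Real.log (s * P) ≤ Real.log P₁ := Real.log_le_log (by positivity) hP₁ge
    rw [Real.log_mul hs0.ne' hP0.ne', ← hL] at h1
    have := neg_abs_le (Real.log s)
    linarith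
  have hH0 : (0 : ℝ) ≤ H := Nat.cast_nonneg H
  have hH1' : 1 ≤ H := by
    have : (1 : ℝ) ≤ H := (one_le_pow₀ hL1).trans hH1
    exact_mod_cast this
  -- conditions of the Bombieri-Vinogradov theorem
  have hcond : ∀ x : ℕ, P₁ ≤ x → x ≤ P → ((2 * H : ℕ) : ℝ) * (Real.log x) ^ (4 * 3 + 28) ≤
      Real.sqrt x := by
    intro x hx1 hx2
    have hx0 : (0 : ℝ) < x := lt_of_lt_of_le hP₁0 (by exact_mod_cast hx1)
    have hlx : Real.log x ≤ L := Real.log_le_log hx0 (by exact_mod_cast hx2)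
    have hlx0 : 0 ≤ Real.log x := Real.log_nonneg (by exact_mod_cast (by omega : 1 ≤ x))
    have h1 : Real.sqrt s * Real.sqrt P ≤ Real.sqrt x := by
      rw [← Real.sqrt_mul hs0.le]
      refine Real.sqrt_le_sqrt (hP₁ge.trans ?_)
      exact_mod_cast hx1
    calc ((2 * H : ℕ) : ℝ) * (Real.log x) ^ (4 * 3 + 28) ≤ (2 * L ^ 42) * L ^ (4 * 3 + 28) := by
          push_cast
          gcongr
      _ = 2 * L ^ 82 := by ring
      _ ≤ 2 * (Real.sqrt s / 2 * Real.sqrt P) := by gcongr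
      _ = Real.sqrt s * Real.sqrt P := by ring
      _ ≤ Real.sqrt x := h1
  have hE1 := hbv P (2 * H) hP3 (hcond P hP₁P le_rfl)
  have hE2 := hbv P₁ (2 * H) hP₁3 (hcond P₁ le_rfl hP₁P)
  have hsub : ∀ x, ∑ l ∈ Ioc H (2 * H), er x l ≤ ∑ l ∈ Icc 1 (2 * H), er x l := by
    intro x
    refine sum_le_sum_of_subset_of_nonneg ?_ (fun _ _ _ => er_nonneg _ _)
    intro l hl
    have := mem_Ioc.1 hl
    exact mem_Icc.2 ⟨by omega, this.2⟩
  have hE1' : C * P / (Real.log P) ^ 3 ≤ C * P / L := by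
    rw [← hL]
    refine div_le_div_of_nonneg_left (by positivity) hL0 (le_self_pow₀ hL1 (by norm_num))
  have hE2' : C * P₁ / (Real.log P₁) ^ 3 ≤ 8 * (C * P / L) := by
    have h1 : (L / 2) ^ 3 ≤ (Real.log P₁) ^ 3 := pow_le_pow_left₀ (by positivity) hlogP₁' 3
    have h2 : C * P₁ / (Real.log P₁) ^ 3 ≤ C * P / (L / 2) ^ 3 := by
      gcongr
    refine h2.trans ?_
    have h3 : C * P / (L / 2) ^ 3 = 8 * (C * P / L ^ 3) := by field_simp; norm_num
    rw [h3]
    refine mul_le_mul_of_nonneg_left ?_ (by norm_num)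
    refine div_le_div_of_nonneg_left (by positivity) hL0 (le_self_pow₀ hL1 (by norm_num))
  -- main term
  have hψ : (1 - s) / 2 * P ≤ psi P - psi P₁ := by
    have h1 := abs_le.1 (hpsi P)
    have h2 := abs_le.1 (hpsi P₁)
    have h3 : (P₁ : ℝ) ≤ P := by exact_mod_cast hP₁P
    nlinarith
  have hharm : (1 / 2 : ℝ) ≤ ∑ l ∈ Ioc H (2 * H), (1 : ℝ) / l := by
    have h1 : ∀ l ∈ Ioc H (2 * H), (1 : ℝ) / (2 * H : ℕ) ≤ 1 / l := by
      intro l hl
      have hl' := mem_Ioc.1 hl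
      have : (0 : ℝ) < l := by exact_mod_cast (by omega : 0 < l)
      refine one_div_le_one_div_of_le this ?_
      exact_mod_cast hl'.2
    have h2 := sum_le_sum h1
    rw [sum_const, Nat.card_Ioc, nsmul_eq_mul] at h2
    refine le_trans (le_of_eq ?_) h2
    have : 2 * H - H = H := by omega
    rw [this]
    have hH : (0 : ℝ) < H := by exact_mod_cast hH1'
    push_cast
    field_simp
  -- sum up
  have hsum : ∑ l ∈ Ioc H (2 * H), ((psi P - psi P₁) / l - er P l - er P₁ l -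
      2 * Real.sqrt P * L) ≤ ∑ l ∈ Ioc H (2 * H), L * ((pr l P₁ P).card : ℝ) := by
    refine sum_le_sum fun l hl => ?_
    exact pr_lower l P₁ P (by have := (mem_Ioc.1 hl).1; omega) (by omega) hP₁P
  rw [← mul_sum] at hsum
  refine le_trans ?_ hsum
  rw [sum_sub_distrib, sum_sub_distrib, sum_sub_distrib, sum_const, Nat.card_Ioc, nsmul_eq_mul]
  have e1 : ∑ l ∈ Ioc H (2 * H), (psi P - psi P₁) / (l : ℝ) =
      (psi P - psi P₁) * ∑ l ∈ Ioc H (2 * H), (1 : ℝ) / l := by
    rw [mul_sum]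
    exact sum_congr rfl fun l _ => by ring
  rw [e1]
  have e2 : (1 - s) / 2 * P * (1 / 2) ≤ (psi P - psi P₁) * ∑ l ∈ Ioc H (2 * H), (1 : ℝ) / l :=
    mul_le_mul hψ hharm (by norm_num) (by linarith [mul_pos (half_pos hs1') hP0])
  have e3 : ((2 * H - H : ℕ) : ℝ) * (2 * Real.sqrt P * L) ≤ (1 - s) / 64 * P := by
    have h1 : 2 * H - H = H := by omega
    rw [h1]
    have hsq : Real.sqrt P * Real.sqrt P = P := Real.mul_self_sqrt hP0.le
    calc (H : ℝ) * (2 * Real.sqrt P * L) ≤ L ^ 42 * (2 * Real.sqrt P * L) := by gcongr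
      _ = 2 * Real.sqrt P * L ^ 43 := by ring
      _ ≤ 2 * Real.sqrt P * ((1 - s) / 128 * Real.sqrt P) := by gcongr
      _ = (1 - s) / 64 * (Real.sqrt P * Real.sqrt P) := by ring
      _ = (1 - s) / 64 * P := by rw [hsq]
  have e4 : 9 * (C * P / L) ≤ (1 - s) / 16 * P := by
    rw [div_le_iff₀ hs1'] at hLC
    rw [mul_div_assoc', div_le_iff₀ hL0]
    nlinarith
  have e5 := (hsub P).trans hE1
  have e6 := (hsub P₁).trans hE2
  linarith

end

end Pool.Agent.D3
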