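import Pool.Agent.Work.MP_d3dd4c_nt.Count

/-! # Lower bound for the number of triples -/

namespace Pool.Agent.D3

open Finset Pool.Agent.BV Filter
open scoped ArithmeticFunction.vonMangoldt

noncomputable section

/-- the error terms, summed over the pairs `(l, p)` -/
theorem er_pairs (H P₁ P x : ℕ) :
    ∑ l ∈ Ioc H (2 * H), ∑ p ∈ pr l P₁ P, er x (kk l p) ≤
      H * ∑ k ∈ Icc 1 (P / H), er x k := by
  have h1 : ∀ l ∈ Ioc H (2 * H), ∑ p ∈ pr l P₁ P, er x (kk l p) ≤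
      ∑ k ∈ Icc 1 (P / H), er x k := by
    intro l hl
    have hinj : Set.InjOn (kk l) (pr l P₁ P : Set ℕ) := by
      intro p hp p' hp' h
      obtain ⟨a1, a2, a3, a4⟩ := kk_facts hl (mem_coe.1 hp)
      obtain ⟨b1, b2, b3, b4⟩ := kk_facts hl (mem_coe.1 hp')
      rw [h] at a2
      omega
    rw [← sum_image (f := fun k => er x k) (fun p hp p' hp' h => hinj hp hp' h)]
    refine sum_le_sum_of_subset_of_nonneg ?_ (fun _ _ _ => er_nonneg _ _)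
    intro k hk
    obtain ⟨p, hp, rfl⟩ := mem_image.1 hk
    obtain ⟨a1, a2, a3, a4⟩ := kk_facts hl hp
    rw [mem_Icc]
    refine ⟨a1, ?_⟩
    have hpP : p ≤ P := by
      unfold pr at hp
      rw [mem_filter, mem_Ioc] at hp
      exact hp.1.2
    have hlH : H < l := (mem_Ioc.1 hl).1
    rcases Nat.eq_zero_or_pos H with h0 | h0
    · have := mem_Ioc.1 hl
      omega
    · rw [Nat.le_div_iff_mul_le h0]
      calc kk l p * H ≤ kk l p * l := Nat.mul_le_mul_left _ hlH.le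
        _ = p - 1 := by rw [mul_comm]; exact a2
        _ ≤ P := by omega
  calc ∑ l ∈ Ioc H (2 * H), ∑ p ∈ pr l P₁ P, er x (kk l p)
      ≤ ∑ l ∈ Ioc H (2 * H), ∑ k ∈ Icc 1 (P / H), er x k := sum_le_sum h1
    _ = H * ∑ k ∈ Icc 1 (P / H), er x k := by
        rw [sum_const, Nat.card_Ioc, nsmul_eq_mul]
        congr 2
        omega

theorem log_two_mul {x P : ℝ} (hx0 : 0 < x) (hx : x ≤ P ^ 2) : Real.log x ≤ 2 * Real.log P := by
  have := Real.log_le_log hx0 hx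
  rw [Real.log_pow] at this
  exact_mod_cast this

/-- the end points -/
theorem endpoints (α β s K P P₁ x₁ x₂ : ℝ) (hα : 1 ≤ α) (hβ : 1 < β) (hP : 1 ≤ P)
    (huv : 1 / β < s ^ 2 / α) (hs0 : 0 < s)
    (hPw : 8 * (K + 2) ≤ P * (s ^ 2 / α - 1 / β)) (hPu : 1 ≤ P * (1 - 1 / β)) (hK : 0 < K)
    (h1 : s * P ≤ P₁) (h2 : P₁ ≤ P) (h3 : P ^ 2 / β ≤ x₁) (h4 : x₁ ≤ P ^ 2 / β + 1)
    (h5 : P₁ ^ 2 / α - 1 ≤ x₂) (h6 : x₂ ≤ P₁ ^ 2 / α) :
    (1 / β) * P ^ 2 ≤ x₁ ∧ x₁ ≤ P ^ 2 ∧ x₂ ≤ P ^ 2 ∧ x₁ ≤ x₂ ∧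
      (s ^ 2 / α - 1 / β) * P ^ 2 - 2 ≤ x₂ - x₁ ∧ 8 * (K + 2) ≤ (s ^ 2 / α - 1 / β) * P ^ 2 := by
  have hα0 : 0 < α := by linarith
  have hβ0 : 0 < β := by linarith
  have hP0 : 0 < P := by linarith
  have hP₁0 : 0 ≤ P₁ := le_trans (by positivity) h1
  have hPP : P ≤ P ^ 2 := le_self_pow₀ hP (by norm_num)
  have e1 : P ^ 2 / β = (1 / β) * P ^ 2 := by ring
  have e2 : (s ^ 2 / α) * P ^ 2 ≤ P₁ ^ 2 / α := by
    rw [div_mul_eq_mul_div]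
    refine div_le_div_of_nonneg_right ?_ hα0.le
    rw [← mul_pow]
    exact pow_le_pow_left₀ (by positivity) h1 2
  have e3 : P₁ ^ 2 / α ≤ P ^ 2 :=
    (div_le_self (by positivity) hα).trans (pow_le_pow_left₀ hP₁0 h2 2)
  have hu1 : 1 / β < 1 := by rw [div_lt_one hβ0]; exact hβ
  have q1 : 1 ≤ P ^ 2 * (1 - 1 / β) :=
    hPu.trans (mul_le_mul_of_nonneg_right hPP (by linarith))
  have q2 : 8 * (K + 2) ≤ P ^ 2 * (s ^ 2 / α - 1 / β) :=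
    hPw.trans (mul_le_mul_of_nonneg_right hPP (by linarith))
  rw [e1] at h3 h4
  have q3 : (s ^ 2 / α - 1 / β) * P ^ 2 - 2 ≤ x₂ - x₁ := by
    have : (s ^ 2 / α - 1 / β) * P ^ 2 = (s ^ 2 / α) * P ^ 2 - (1 / β) * P ^ 2 := by ring
    linarith
  refine ⟨h3, ?_, by linarith, by linarith, q3, by linarith⟩
  have : P ^ 2 * (1 - 1 / β) = P ^ 2 - (1 / β) * P ^ 2 := by ring
  linarith

/-- the Bombieri-Vinogradov theorem for the moduli `k ≤ P / H` -/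
theorem bv_K {C : ℝ} (hC : 0 < C)
    (hbv : ∀ (x Q : ℕ), 3 ≤ x → (Q : ℝ) * (Real.log x) ^ (4 * 3 + 28) ≤ Real.sqrt x →
      ∑ q ∈ Icc 1 Q, er x q ≤ C * x / (Real.log x) ^ 3)
    (P H x : ℕ) (e₀ : ℝ) (he₀ : 0 < e₀) (hP : 3 ≤ P) (hL1 : 1 ≤ Real.log P)
    (hH1 : (Real.log P) ^ 41 ≤ H) (hPe : 3 ≤ P * e₀)
    (hLe : 2 ^ 40 / Real.sqrt e₀ ≤ Real.log P) (hx1 : e₀ * P ^ 2 ≤ x) (hx2 : (x : ℝ) ≤ P ^ 2) :
    ∑ k ∈ Icc 1 (P / H), er x k ≤ C * P ^ 2 / (Real.log P) ^ 3 := by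
  have hPR : (3 : ℝ) ≤ P := by exact_mod_cast hP
  have hP0 : (0 : ℝ) < P := by linarith
  have hse : 0 < Real.sqrt e₀ := Real.sqrt_pos.2 he₀
  set L : ℝ := Real.log P with hL
  have hL0 : 0 < L := by linarith
  have hxP' : 3 * (P : ℝ) ≤ x := by
    refine le_trans ?_ hx1
    calc 3 * (P : ℝ) ≤ (P * e₀) * P := by gcongr
      _ = e₀ * P ^ 2 := by ring
  have hxP : (P : ℝ) ≤ x := by linarith
  have hx0 : (0 : ℝ) < x := by linarith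
  have hlx1 : L ≤ Real.log x := Real.log_le_log hP0 hxP
  have hlx2 : Real.log x ≤ 2 * L := log_two_mul hx0 hx2
  have hsq : Real.sqrt e₀ * P ≤ Real.sqrt x := by
    have : Real.sqrt (e₀ * P ^ 2) = Real.sqrt e₀ * P := by
      rw [Real.sqrt_mul he₀.le, Real.sqrt_sq hP0.le]
    rw [← this]
    exact Real.sqrt_le_sqrt hx1
  have hcond : ((P / H : ℕ) : ℝ) * (Real.log x) ^ (4 * 3 + 28) ≤ Real.sqrt x := by
    have h1 : ((P / H : ℕ) : ℝ) ≤ P / L ^ 41 := by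
      refine Nat.cast_div_le.trans ?_
      exact div_le_div_of_nonneg_left hP0.le (by positivity) hH1
    have h2 : (Real.log x) ^ (4 * 3 + 28) ≤ (2 * L) ^ 40 :=
      pow_le_pow_left₀ (by linarith) hlx2 40
    have h3 : 2 ^ 40 ≤ Real.sqrt e₀ * L := by
      rw [div_le_iff₀ hse] at hLe
      linarith
    calc ((P / H : ℕ) : ℝ) * (Real.log x) ^ (4 * 3 + 28) ≤ (P / L ^ 41) * (2 * L) ^ 40 := by
          gcongr
      _ = (2 ^ 40 / L) * P := by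
          rw [mul_pow, pow_succ L 40]; field_simp
      _ ≤ Real.sqrt e₀ * P := by
          refine mul_le_mul_of_nonneg_right ?_ hP0.le
          rw [div_le_iff₀ hL0]; exact h3
      _ ≤ Real.sqrt x := hsq
  have hx3 : 3 ≤ x := by
    have : (3 : ℝ) ≤ x := by linarith
    exact_mod_cast this
  refine (hbv x (P / H) hx3 hcond).trans ?_
  gcongr

/-- the lower bound for one pair `(l, p)` -/
theorem pointwise (H P₁ P x₁ x₂ l p : ℕ) (c₀ : ℝ) (hc₀ : 0 < c₀) (hL1 : 1 ≤ Real.log P)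
    (hH1 : (Real.log P) ^ 41 ≤ H) (hLc : 8 / c₀ ≤ Real.log P) (hx₂1 : 1 ≤ x₂) (hx : x₁ ≤ x₂)
    (hx₂ : (x₂ : ℝ) ≤ P ^ 2) (hψ : c₀ * P ^ 2 ≤ psi x₂ - psi x₁)
    (hl : l ∈ Ioc H (2 * H)) (hp : p ∈ pr l P₁ P) :
    c₀ / 2 * P * H - er x₂ (kk l p) - er x₁ (kk l p) ≤
      2 * Real.log P * ((pr (kk l p) x₁ x₂).card : ℝ) := by
  set L : ℝ := Real.log P with hL
  have hL0 : 0 < L := by linarith
  obtain ⟨a1, a2, a3, a4⟩ := kk_facts hl hp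
  have hk0 : (0 : ℝ) < kk l p := by exact_mod_cast a1
  have hpP : p ≤ P := by
    unfold pr at hp
    rw [mem_filter, mem_Ioc] at hp
    exact hp.1.2
  have hP0 : (0 : ℝ) ≤ P := Nat.cast_nonneg _
  have hkH : (kk l p : ℝ) * H ≤ P := by
    have : kk l p * H ≤ P := by
      calc kk l p * H ≤ kk l p * l := Nat.mul_le_mul_left _ (mem_Ioc.1 hl).1.le
        _ = p - 1 := by rw [mul_comm]; exact a2
        _ ≤ P := by omega
    exact_mod_cast this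
  have hlx₂ : Real.log x₂ ≤ 2 * L := log_two_mul (by exact_mod_cast hx₂1) hx₂
  have hlx₂0 : 0 ≤ Real.log x₂ := Real.log_nonneg (by exact_mod_cast hx₂1)
  have h1 := pr_lower (kk l p) x₁ x₂ a1 hx₂1 hx
  have h2 : c₀ * P * H ≤ (psi x₂ - psi x₁) / kk l p := by
    rw [le_div_iff₀ hk0]
    calc c₀ * P * H * kk l p = c₀ * P * (kk l p * H) := by ring
      _ ≤ c₀ * P * P := by gcongr
      _ = c₀ * P ^ 2 := by ring
      _ ≤ _ := hψ
  have h3 : 2 * Real.sqrt x₂ * Real.log x₂ ≤ c₀ / 2 * P * H := by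
    have h4 : Real.sqrt x₂ ≤ P := by
      rw [Real.sqrt_le_left hP0]; exact hx₂
    have h5 : 8 * L ≤ c₀ * H := by
      rw [div_le_iff₀ hc₀] at hLc
      have h6 : L * L ≤ H := by
        refine le_trans ?_ hH1
        calc L * L = L ^ 2 := by ring
          _ ≤ L ^ 41 := pow_le_pow_right₀ hL1 (by norm_num)
      calc 8 * L ≤ (L * c₀) * L := by gcongr
        _ = c₀ * (L * L) := by ring
        _ ≤ c₀ * H := by gcongr
    calc 2 * Real.sqrt x₂ * Real.log x₂ ≤ 2 * P * (2 * L) := by gcongr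
      _ = P * (8 * L) / 2 := by ring
      _ ≤ P * (c₀ * H) / 2 := by gcongr
      _ = c₀ / 2 * P * H := by ring
  have h4 : Real.log x₂ * ((pr (kk l p) x₁ x₂).card : ℝ) ≤
      2 * L * ((pr (kk l p) x₁ x₂).card : ℝ) := by gcongr
  have h5 : c₀ * P * H = c₀ / 2 * P * H + c₀ / 2 * P * H := by ring
  linarith

theorem final_num (c₀ C s P H L S N : ℝ) (hc₀ : 0 < c₀) (hs : 0 < 1 - s) (hP : 0 < P) (hH : 0 < H)
    (hL1 : 1 ≤ L) (hC : 0 < C) (hLC : 64 * C / (c₀ * (1 - s)) ≤ L)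
    (hpairs : (1 - s) / 8 * P ≤ L * S)
    (hmain : c₀ / 2 * P * H * S - 2 * (H * (C * P ^ 2 / L ^ 3)) ≤ 2 * L * N) :
    c₀ * (1 - s) / 64 * P ^ 2 * H / L ^ 2 ≤ N := by
  have hL0 : 0 < L := by linarith
  have h1 : c₀ / 2 * P * H * ((1 - s) / 8 * P) - 2 * (H * (C * P ^ 2 / L ^ 2)) ≤ 2 * L ^ 2 * N := by
    have e1 : L * (c₀ / 2 * P * H * S - 2 * (H * (C * P ^ 2 / L ^ 3))) ≤ L * (2 * L * N) :=
      mul_le_mul_of_nonneg_left hmain hL0.le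
    have e2 : L * (2 * (H * (C * P ^ 2 / L ^ 3))) = 2 * (H * (C * P ^ 2 / L ^ 2)) := by
      field_simp
    have e3 : c₀ / 2 * P * H * ((1 - s) / 8 * P) ≤ c₀ / 2 * P * H * (L * S) := by gcongr
    rw [mul_sub, e2] at e1
    have e4 : L * (c₀ / 2 * P * H * S) = c₀ / 2 * P * H * (L * S) := by ring
    have e5 : L * (2 * L * N) = 2 * L ^ 2 * N := by ring
    rw [e4, e5] at e1
    linarith
  have h2 : 2 * (H * (C * P ^ 2 / L ^ 2)) ≤ c₀ * (1 - s) / 32 * P ^ 2 * H := by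
    have e1 : 64 * C ≤ c₀ * (1 - s) * L ^ 2 := by
      rw [div_le_iff₀ (by positivity)] at hLC
      have : L ≤ L ^ 2 := le_self_pow₀ hL1 (by norm_num)
      calc 64 * C ≤ L * (c₀ * (1 - s)) := hLC
        _ ≤ L ^ 2 * (c₀ * (1 - s)) := by gcongr
        _ = _ := by ring
    have e2 : C * P ^ 2 / L ^ 2 ≤ c₀ * (1 - s) / 64 * P ^ 2 := by
      rw [div_le_iff₀ (by positivity)]
      calc C * P ^ 2 = (64 * C) * (P ^ 2 / 64) := by ring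
        _ ≤ (c₀ * (1 - s) * L ^ 2) * (P ^ 2 / 64) := by gcongr
        _ = _ := by ring
    calc 2 * (H * (C * P ^ 2 / L ^ 2)) ≤ 2 * (H * (c₀ * (1 - s) / 64 * P ^ 2)) := by gcongr
      _ = _ := by ring
  rw [div_le_iff₀ (by positivity)]
  have e1 : c₀ / 2 * P * H * ((1 - s) / 8 * P) = c₀ * (1 - s) / 16 * P ^ 2 * H := by ring
  have e2 : c₀ * (1 - s) / 64 * P ^ 2 * H = (c₀ * (1 - s) / 16 * P ^ 2 * H -
    c₀ * (1 - s) / 32 * P ^ 2 * H) / 4 + c₀ * (1 - s) / 128 * P ^ 2 * H := by ring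
  have e3 : 0 < c₀ * (1 - s) / 128 * P ^ 2 * H := by positivity
  have e4 : c₀ * (1 - s) / 16 * P ^ 2 * H = 8 * (c₀ * (1 - s) / 128 * P ^ 2 * H) := by ring
  have e5 : c₀ * (1 - s) / 32 * P ^ 2 * H = 4 * (c₀ * (1 - s) / 128 * P ^ 2 * H) := by ring
  have e6 : c₀ * (1 - s) / 64 * P ^ 2 * H = 2 * (c₀ * (1 - s) / 128 * P ^ 2 * H) := by ring
  rw [e6]
  rw [e1, e4] at h1
  rw [e5] at h2
  have e7 : N * L ^ 2 = (2 * L ^ 2 * N) / 2 := by ring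
  rw [e7]
  linarith

/-- number of triples -/
theorem triples_lower (α β s : ℝ) (hα : 1 ≤ α) (hαβ : α < β) (hs0 : 0 < s) (hs1 : s < 1)
    (hs : α < β * s ^ 2) : ∃ c : ℝ, 0 < c ∧ ∀ᶠ P : ℕ in atTop, ∀ H : ℕ,
      (Real.log P) ^ 41 ≤ H → (H : ℝ) ≤ (Real.log P) ^ 42 →
      c * P ^ 2 * H / (Real.log P) ^ 2 ≤
        ((T H ⌈s * P⌉₊ P ⌈(P : ℝ) ^ 2 / β⌉₊ ⌊((⌈s * P⌉₊ : ℕ) : ℝ) ^ 2 / α⌋₊).card : ℝ) := by
  have hβ1 : 1 < β := by linarith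
  have hβ0 : 0 < β := by linarith
  have hα0 : 0 < α := by linarith
  have huv : 1 / β < s ^ 2 / α := by
    rw [div_lt_div_iff₀ hβ0 hα0]
    linarith
  have hu0 : 0 < 1 / β := by positivity
  have hu1 : 1 / β < 1 := by rw [div_lt_one hβ0]; exact hβ1
  set w : ℝ := s ^ 2 / α - 1 / β with hw
  have hw0 : 0 < w := by linarith
  have hc₀0 : 0 < w / 2 := by positivity
  obtain ⟨C, hC, hbv⟩ := bv_er 3
  obtain ⟨K, hK, hpsi⟩ := psi_close (w / 16) (by positivity)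
  have hs1' : 0 < 1 - s := by linarith
  refine ⟨w / 2 * (1 - s) / 64, by positivity, ?_⟩
  filter_upwards [pairs_lower s hs0 hs1, log_large 1, log_large (2 ^ 40 / Real.sqrt (1 / β)),
    log_large (8 / (w / 2)), log_large (64 * C / (w / 2 * (1 - s))),
    eventually_ge_atTop ⌈8 * (K + 2) / w⌉₊, eventually_ge_atTop ⌈3 / (1 / β)⌉₊,
    eventually_ge_atTop ⌈1 / (1 - 1 / β)⌉₊, eventually_ge_atTop 3]
    with P hpairs hL1 hLe hLc hLC hP1 hP2 hP3' hP3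
  intro H hH1 hH2
  have hpairs' := hpairs H hH1 hH2
  have hPR : (3 : ℝ) ≤ P := by exact_mod_cast hP3
  have hP0 : (0 : ℝ) < P := by linarith
  have hceil : ∀ z : ℝ, ⌈z⌉₊ ≤ P → z ≤ P := by
    intro z hz
    exact (Nat.le_ceil z).trans (by exact_mod_cast hz)
  have hPw := hceil _ hP1
  have hPe := hceil _ hP2
  have hPu := hceil _ hP3'
  rw [div_le_iff₀ hw0] at hPw
  rw [div_le_iff₀ hu0] at hPe
  rw [div_le_iff₀ (by linarith)] at hPu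
  have hP₁ge : s * P ≤ (⌈s * P⌉₊ : ℕ) := Nat.le_ceil _
  have hP₁P : ((⌈s * P⌉₊ : ℕ) : ℝ) ≤ P := by
    have h1 : s * P ≤ P := by
      calc s * P ≤ 1 * P := by gcongr
        _ = P := one_mul _
    exact_mod_cast Nat.ceil_le.2 h1
  set P₁ : ℕ := ⌈s * P⌉₊ with hP₁
  set x₁ : ℕ := ⌈(P : ℝ) ^ 2 / β⌉₊ with hx₁
  set x₂ : ℕ := ⌊(P₁ : ℝ) ^ 2 / α⌋₊ with hx₂
  obtain ⟨g1, g2, g3, g4, g5, g6⟩ := endpoints α β s K P P₁ x₁ x₂ hα hβ1 (by linarith) huv hs0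
    hPw hPu hK hP₁ge hP₁P (Nat.le_ceil _) (Nat.ceil_lt_add_one (by positivity)).le
    (Nat.sub_one_lt_floor _).le (Nat.floor_le (by positivity))
  have hx₁x₂ : x₁ ≤ x₂ := by exact_mod_cast g4
  have hx₂1 : 1 ≤ x₂ := by
    have h1 : (0 : ℝ) < x₁ := lt_of_lt_of_le (by positivity) g1
    have h2 : (0 : ℝ) < x₂ := by linarith
    exact_mod_cast h2
  have hψ : w / 2 * P ^ 2 ≤ psi x₂ - psi x₁ := by
    have h1 := abs_le.1 (hpsi x₁)
    have h2 := abs_le.1 (hpsi x₂)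
    have h3 : w / 16 * x₁ ≤ w / 16 * P ^ 2 := by gcongr
    have h4 : w / 16 * x₂ ≤ w / 16 * P ^ 2 := by gcongr
    have h7 : w / 2 * (P : ℝ) ^ 2 = 1 / 2 * (w * P ^ 2) := by ring
    have h8 : w / 16 * (P : ℝ) ^ 2 = 1 / 16 * (w * P ^ 2) := by ring
    rw [h8] at h3 h4
    rw [h7]
    linarith
  have hbv1 := bv_K hC hbv P H x₁ (1 / β) hu0 hP3 hL1 hH1 hPe hLe g1 g2
  have hbv2 := bv_K hC hbv P H x₂ (1 / β) hu0 hP3 hL1 hH1 hPe hLe (g1.trans g4) g3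
  have hpt : ∀ l ∈ Ioc H (2 * H), ∀ p ∈ pr l P₁ P,
      w / 2 / 2 * P * H - er x₂ (kk l p) - er x₁ (kk l p) ≤
        2 * Real.log P * ((pr (kk l p) x₁ x₂).card : ℝ) := fun l hl p hp =>
    pointwise H P₁ P x₁ x₂ l p (w / 2) hc₀0 hL1 hH1 hLc hx₂1 hx₁x₂ g3 hψ hl hp
  have hsum := sum_le_sum fun l hl => sum_le_sum fun p hp => hpt l hl p hp
  simp_rw [sum_sub_distrib] at hsum
  have hT : ∑ l ∈ Ioc H (2 * H), ∑ p ∈ pr l P₁ P,
      2 * Real.log P * ((pr (kk l p) x₁ x₂).card : ℝ) =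
      2 * Real.log P * ((T H P₁ P x₁ x₂).card : ℝ) := by
    rw [card_T]
    push_cast
    rw [mul_sum]
    refine sum_congr rfl fun l _ => ?_
    rw [mul_sum]
  rw [hT] at hsum
  have hconst : ∑ l ∈ Ioc H (2 * H), ∑ _p ∈ pr l P₁ P, w / 2 / 2 * P * H =
      w / 2 / 2 * P * H * ∑ l ∈ Ioc H (2 * H), ((pr l P₁ P).card : ℝ) := by
    rw [mul_sum]
    refine sum_congr rfl fun l _ => ?_
    rw [sum_const, nsmul_eq_mul, mul_comm]
  rw [hconst] at hsum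
  have hE1 := er_pairs H P₁ P x₁
  have hE2 := er_pairs H P₁ P x₂
  have hHR : (0 : ℝ) < H := lt_of_lt_of_le (by positivity) hH1
  have hB1 : (H : ℝ) * ∑ k ∈ Icc 1 (P / H), er x₁ k ≤ H * (C * P ^ 2 / (Real.log P) ^ 3) := by
    gcongr
  have hB2 : (H : ℝ) * ∑ k ∈ Icc 1 (P / H), er x₂ k ≤ H * (C * P ^ 2 / (Real.log P) ^ 3) := by
    gcongr
  exact final_num (w / 2) C s P H (Real.log P) _ _ hc₀0 hs1' hP0 hHR hL1 hC hLC hpairs' (by linarith)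

end

end Pool.Agent.D3
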