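import Pool.Agent.Work.MP_d3dd4c_nt.Count2

/-! # Rationals of the form `(p^2-1)/(q-1)`: the counting theorem -/

namespace Pool.Agent.D3

open Finset Pool.Agent.BV Filter

noncomputable section

/-- `r = (p^2-1)/(q-1)` with `p`, `q` prime -/
def Rep (r : ℚ) : Prop := ∃ p q : ℕ, p.Prime ∧ q.Prime ∧ r = ((p : ℚ) ^ 2 - 1) / ((q : ℚ) - 1)

theorem bad_le (G H P₁ P x₁ x₂ : ℕ) (hG : 1 ≤ G) (hx : x₂ ≤ P₁ ^ 2) :
    ((Tb G H P₁ P x₁ x₂).card : ℝ) ≤
      4 * H ^ 3 * (P + 1) ^ 2 * (1 + Real.log (P + 1 : ℕ)) / G := by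
  refine (card_Tb G H P₁ P x₁ x₂ hG hx).trans ?_
  have hG0 : (0 : ℝ) < G := by exact_mod_cast hG
  have h1 : ∀ l ∈ Ioc H (2 * H), ∑ p ∈ pr l P₁ P, ((dd l p).divisors.card * (dd l p / G : ℝ)) ≤
      4 * H ^ 2 * (P + 1) / G * ((P + 1) * (1 + Real.log (P + 1 : ℕ))) := by
    intro l hl
    have hl2 : (l : ℝ) ≤ 2 * H := by exact_mod_cast (mem_Ioc.1 hl).2
    have h2 : ∀ p ∈ pr l P₁ P, ((dd l p).divisors.card * (dd l p / G : ℝ)) ≤
        4 * H ^ 2 * (P + 1) / G * ((p + 1).divisors.card : ℝ) := by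
      intro p hp
      have hpP : (p : ℝ) ≤ P := by
        unfold pr at hp
        rw [mem_filter, mem_Ioc] at hp
        exact_mod_cast hp.1.2
      have h3 : ((dd l p).divisors.card : ℝ) ≤ 2 * H * ((p + 1).divisors.card : ℝ) := by
        unfold dd
        refine (DivSum_tauMul l (p + 1)).trans ?_
        have : (l.divisors.card : ℝ) ≤ l := by exact_mod_cast Nat.card_divisors_le_self l
        gcongr
        linarith
      have h4 : (dd l p : ℝ) ≤ 2 * H * (P + 1) := by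
        unfold dd
        push_cast
        gcongr
      calc ((dd l p).divisors.card * (dd l p / G : ℝ))
          ≤ (2 * H * ((p + 1).divisors.card : ℝ)) * (2 * H * (P + 1) / G) := by gcongr
        _ = _ := by ring
    refine (sum_le_sum h2).trans ?_
    rw [← mul_sum]
    have h3 : ∑ p ∈ pr l P₁ P, ((p + 1).divisors.card : ℝ) ≤
        (P + 1) * (1 + Real.log (P + 1 : ℕ)) := by
      have h4 : ∑ p ∈ pr l P₁ P, ((p + 1).divisors.card : ℝ) ≤
          ∑ n ∈ Icc 1 (P + 1), (n.divisors.card : ℝ) := by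
        rw [← sum_image (f := fun n : ℕ => (n.divisors.card : ℝ)) (g := fun p : ℕ => p + 1)
          (fun a _ b _ h => by simpa using h)]
        refine sum_le_sum_of_subset_of_nonneg ?_ (fun _ _ _ => Nat.cast_nonneg _)
        intro n hn
        obtain ⟨p, hp, rfl⟩ := mem_image.1 hn
        unfold pr at hp
        rw [mem_filter, mem_Ioc] at hp
        rw [mem_Icc]
        omega
      refine h4.trans ((DivSum_T (P + 1) (P + 1) le_rfl).trans ?_)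
      have := DivSum_H (P + 1)
      push_cast at this ⊢
      gcongr
    gcongr
  refine (sum_le_sum h1).trans ?_
  rw [sum_const, Nat.card_Ioc, nsmul_eq_mul]
  have e : 2 * H - H = H := by omega
  rw [e]
  refine le_of_eq ?_
  ring

theorem finite_rat (N : ℕ) : {r : ℚ | 1 < r ∧ r.num ≤ N}.Finite := by
  refine Set.Finite.of_finite_image (f := fun r : ℚ => (r.num, (r.den : ℤ)))
    ((Set.Finite.prod (Set.finite_Icc (0 : ℤ) N) (Set.finite_Icc (0 : ℤ) N)).subset ?_) ?_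
  · rintro _ ⟨r, ⟨hr1, hr2⟩, rfl⟩
    have hden : (0 : ℤ) < r.den := by exact_mod_cast r.den_pos
    have h1 : (r.den : ℤ) < r.num := by
      have h2 : (1 : ℚ) < r.num / r.den := by rw [Rat.num_div_den]; exact hr1
      rw [one_lt_div (by exact_mod_cast hden)] at h2
      exact_mod_cast h2
    simp only [Set.mem_prod, Set.mem_Icc]
    omega
  · intro r _ r' _ h
    simp only [Prod.mk.injEq, Nat.cast_inj] at h
    exact Rat.ext h.1 h.2

/-- the values of the good triples are representable rationals in `(α, β)` of small height -/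
theorem image_subset (α β : ℝ) (hα : 1 ≤ α) (hβ : 0 < β) (G H P₁ P x₁ x₂ N : ℕ)
    (hx₁ : (P : ℝ) ^ 2 / β ≤ x₁) (hx₂ : (x₂ : ℝ) ≤ (P₁ : ℝ) ^ 2 / α)
    (hN : 2 * H * (P + 1) ≤ N) :
    (((Tg G H P₁ P x₁ x₂).image val : Finset ℚ) : Set ℚ) ⊆
      {r : ℚ | α < r ∧ (r : ℝ) < β ∧ r.num ≤ N ∧ Rep r} := by
  have hα0 : 0 < α := by linarith
  have hx : x₂ ≤ P₁ ^ 2 := by
    have h1 : (x₂ : ℝ) ≤ (P₁ : ℝ) ^ 2 := hx₂.trans (div_le_self (by positivity) hα)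
    exact_mod_cast h1
  intro r hr
  obtain ⟨t, ht, rfl⟩ := mem_image.1 (mem_coe.1 hr)
  unfold Tg at ht
  obtain ⟨h0, _⟩ := mem_filter.1 ht
  obtain ⟨h1, h2, h3⟩ := mem_T_facts h0
  obtain ⟨a1, a2, a3, a4, b1, b2, b3, b4⟩ := mem_T_facts2 hx h0
  have hp := h2
  have hq := h3
  unfold pr at hp hq
  rw [mem_filter, mem_Ioc] at hp hq
  have hpR : (P₁ : ℝ) + 1 ≤ t.2.1 := by exact_mod_cast hp.1.1
  have hpR2 : (t.2.1 : ℝ) ≤ P := by exact_mod_cast hp.1.2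
  have hqR : (x₁ : ℝ) + 1 ≤ t.2.2 := by exact_mod_cast hq.1.1
  have hqR2 : (t.2.2 : ℝ) ≤ x₂ := by exact_mod_cast hq.1.2
  have hq1 : (0 : ℝ) < (t.2.2 : ℝ) - 1 := by
    have : (2 : ℝ) ≤ t.2.2 := by exact_mod_cast b2
    linarith
  have hP₁0 : (0 : ℝ) ≤ P₁ := Nat.cast_nonneg _
  have hval : ((val t : ℚ) : ℝ) = ((t.2.1 : ℝ) ^ 2 - 1) / ((t.2.2 : ℝ) - 1) := by
    unfold val
    push_cast
    rfl
  refine ⟨?_, ?_, ?_, t.2.1, t.2.2, hp.2.1, hq.2.1, rfl⟩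
  · rw [hval, lt_div_iff₀ hq1]
    rw [le_div_iff₀ hα0] at hx₂
    have e1 : α * ((t.2.2 : ℝ) - 1) ≤ (P₁ : ℝ) ^ 2 - 1 := by
      have : α * (t.2.2 : ℝ) ≤ α * x₂ := by gcongr
      linarith
    have e2 : ((P₁ : ℝ) + 1) ^ 2 ≤ (t.2.1 : ℝ) ^ 2 := pow_le_pow_left₀ (by linarith) hpR 2
    have e3 : ((P₁ : ℝ) + 1) ^ 2 = (P₁ : ℝ) ^ 2 + 2 * P₁ + 1 := by ring
    linarith
  · rw [hval, div_lt_iff₀ hq1]
    rw [div_le_iff₀ hβ] at hx₁
    have e1 : (x₁ : ℝ) * β ≤ ((t.2.2 : ℝ) - 1) * β := by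
      have : (x₁ : ℝ) ≤ (t.2.2 : ℝ) - 1 := by linarith
      gcongr
    have e2 : (t.2.1 : ℝ) ^ 2 ≤ (P : ℝ) ^ 2 := pow_le_pow_left₀ (by positivity) hpR2 2
    linarith
  · have hdvd : (val t).num ∣ (dd t.1 t.2.1 : ℤ) := by
      rw [val_eq hx h0]
      have h5 : ((dd t.1 t.2.1 : ℚ)) / (aa t.1 t.2.1 t.2.2 : ℚ) =
          Rat.divInt (dd t.1 t.2.1 : ℤ) (aa t.1 t.2.1 t.2.2 : ℤ) := by
        rw [Rat.divInt_eq_div]
        push_cast
        rfl
      rw [h5]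
      refine Rat.num_dvd _ ?_
      have : aa t.1 t.2.1 t.2.2 ≠ 0 := by omega
      exact_mod_cast this
    have hpos : (0 : ℤ) < dd t.1 t.2.1 := by
      have : 0 < dd t.1 t.2.1 := by unfold dd; exact Nat.mul_pos (by omega) (by omega)
      exact_mod_cast this
    have hle := Int.le_of_dvd hpos hdvd
    have h6 : dd t.1 t.2.1 ≤ N := by
      refine le_trans ?_ hN
      unfold dd
      exact Nat.mul_le_mul (mem_Ioc.1 h1).2 (by omega)
    have h7 : (dd t.1 t.2.1 : ℤ) ≤ N := by exact_mod_cast h6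
    linarith

/-- the lower bound in terms of `P` and `H` -/
theorem main_PH (α β : ℝ) (hα : 1 ≤ α) (hαβ : α < β) : ∃ c : ℝ, 0 < c ∧ ∀ᶠ P : ℕ in atTop,
    ∀ H N : ℕ, (Real.log P) ^ 41 ≤ H → (H : ℝ) ≤ (Real.log P) ^ 42 → 2 * H * (P + 1) ≤ N →
      c * P ^ 2 / (H ^ 3 * (Real.log P) ^ 2) ≤
        (Set.ncard {r : ℚ | α < r ∧ (r : ℝ) < β ∧ r.num ≤ N ∧ Rep r} : ℝ) := by
  have hβ0 : 0 < β := by linarith
  have hα0 : 0 < α := by linarith
  set s : ℝ := Real.sqrt ((α / β + 1) / 2) with hs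
  have hab : α / β < 1 := by rw [div_lt_one hβ0]; exact hαβ
  have hab0 : 0 < α / β := by positivity
  have hs2 : s ^ 2 = (α / β + 1) / 2 := Real.sq_sqrt (by positivity)
  have hs0 : 0 < s := Real.sqrt_pos.2 (by positivity)
  have hs1 : s < 1 := by
    rw [hs, Real.sqrt_lt' one_pos]
    linarith
  have hs3 : α < β * s ^ 2 := by
    rw [hs2]
    have : β * ((α / β + 1) / 2) = (α + β) / 2 := by field_simp
    rw [this]
    linarith
  obtain ⟨c, hc, h⟩ := triples_lower α β s hα hαβ hs0 hs1 hs3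
  refine ⟨c / 2, by positivity, ?_⟩
  filter_upwards [h, log_large 1, log_large (96 / c), eventually_ge_atTop 3] with P hP hL1 hLc hP3
  intro H N hH1 hH2 hN
  have hT := hP H hH1 hH2
  set P₁ : ℕ := ⌈s * P⌉₊ with hP₁
  set x₁ : ℕ := ⌈(P : ℝ) ^ 2 / β⌉₊ with hx₁
  set x₂ : ℕ := ⌊(P₁ : ℝ) ^ 2 / α⌋₊ with hx₂
  set L : ℝ := Real.log P with hL
  have hL0 : 0 < L := by linarith
  have hPR : (3 : ℝ) ≤ P := by exact_mod_cast hP3
  have hP0 : (0 : ℝ) < P := by linarith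
  have hH1' : 1 ≤ H := by
    have : (1 : ℝ) ≤ H := (one_le_pow₀ hL1).trans hH1
    exact_mod_cast this
  have hH0 : (0 : ℝ) < H := by exact_mod_cast hH1'
  have hx₂' : (x₂ : ℝ) ≤ (P₁ : ℝ) ^ 2 / α := Nat.floor_le (by positivity)
  have hx : x₂ ≤ P₁ ^ 2 := by
    have h1 : (x₂ : ℝ) ≤ (P₁ : ℝ) ^ 2 := hx₂'.trans (div_le_self (by positivity) hα)
    exact_mod_cast h1
  have hG : 1 ≤ H ^ 3 := Nat.one_le_pow _ _ hH1'
  have hb := bad_le (H ^ 3) H P₁ P x₁ x₂ hG hx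
  have hsplit : ((T H P₁ P x₁ x₂).card : ℝ) =
      ((Tg (H ^ 3) H P₁ P x₁ x₂).card : ℝ) + ((Tb (H ^ 3) H P₁ P x₁ x₂).card : ℝ) := by
    unfold Tg Tb
    rw [← Nat.cast_add, card_filter_add_card_filter_not]
  have hb2 : ((Tb (H ^ 3) H P₁ P x₁ x₂).card : ℝ) ≤ c / 2 * P ^ 2 * H / L ^ 2 := by
    refine hb.trans ?_
    have e1 : 4 * (H : ℝ) ^ 3 * (P + 1) ^ 2 * (1 + Real.log (P + 1 : ℕ)) / ((H ^ 3 : ℕ) : ℝ) =
        4 * (P + 1) ^ 2 * (1 + Real.log (P + 1 : ℕ)) := by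
      push_cast
      field_simp
    rw [e1]
    have e2 : Real.log (P + 1 : ℕ) ≤ 2 * L := by
      refine log_two_mul (by positivity) ?_
      push_cast
      nlinarith
    have e3 : ((P : ℝ) + 1) ^ 2 ≤ 4 * P ^ 2 := by nlinarith
    have e4 : 4 * ((P : ℝ) + 1) ^ 2 * (1 + Real.log (P + 1 : ℕ)) ≤ 48 * P ^ 2 * L := by
      calc 4 * ((P : ℝ) + 1) ^ 2 * (1 + Real.log (P + 1 : ℕ)) ≤ 4 * (4 * P ^ 2) * (L + 2 * L) := by
            gcongr
        _ = 48 * P ^ 2 * L := by ring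
    refine e4.trans ?_
    rw [le_div_iff₀ (by positivity)]
    have e5 : 96 * L ^ 3 ≤ c * H := by
      rw [div_le_iff₀ hc] at hLc
      calc 96 * L ^ 3 ≤ (L * c) * L ^ 3 := by gcongr
        _ = c * L ^ 4 := by ring
        _ ≤ c * L ^ 41 := by
            refine mul_le_mul_of_nonneg_left ?_ hc.le
            exact pow_le_pow_right₀ hL1 (by norm_num)
        _ ≤ c * H := by gcongr
    calc 48 * (P : ℝ) ^ 2 * L * L ^ 2 = P ^ 2 / 2 * (96 * L ^ 3) := by ring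
      _ ≤ P ^ 2 / 2 * (c * H) := by gcongr
      _ = _ := by ring
  have hg : c / 2 * P ^ 2 * H / L ^ 2 ≤ ((Tg (H ^ 3) H P₁ P x₁ x₂).card : ℝ) := by
    have e1 : c * (P : ℝ) ^ 2 * H / L ^ 2 = c / 2 * P ^ 2 * H / L ^ 2 + c / 2 * P ^ 2 * H / L ^ 2 := by
      ring
    linarith
  have hfib := fiber_le (H ^ 3) H P₁ P x₁ x₂ hx
  have hfib' : ((Tg (H ^ 3) H P₁ P x₁ x₂).card : ℝ) ≤
      (H : ℝ) ^ 4 * (((Tg (H ^ 3) H P₁ P x₁ x₂).image val).card : ℝ) := by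
    have : ((Tg (H ^ 3) H P₁ P x₁ x₂).card : ℝ) ≤
      ((H ^ 3 * H : ℕ) : ℝ) * (((Tg (H ^ 3) H P₁ P x₁ x₂).image val).card : ℝ) := by
      exact_mod_cast hfib
    refine this.trans (le_of_eq ?_)
    push_cast
    ring
  have hsub := image_subset α β hα hβ0 (H ^ 3) H P₁ P x₁ x₂ N (Nat.le_ceil _) hx₂' hN
  have hfin : {r : ℚ | α < r ∧ (r : ℝ) < β ∧ r.num ≤ N ∧ Rep r}.Finite := by
    refine (finite_rat N).subset ?_
    rintro r ⟨h1, _, h3, _⟩
    refine ⟨?_, h3⟩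
    have : (1 : ℝ) < r := by linarith
    exact_mod_cast this
  have hncard := Set.ncard_le_ncard hsub hfin
  rw [Set.ncard_coe_finset] at hncard
  have hncard' : (((Tg (H ^ 3) H P₁ P x₁ x₂).image val).card : ℝ) ≤
      (Set.ncard {r : ℚ | α < r ∧ (r : ℝ) < β ∧ r.num ≤ N ∧ Rep r} : ℝ) := by
    exact_mod_cast hncard
  refine le_trans ?_ hncard'
  have h5 := hg.trans hfib'
  rw [div_le_iff₀ (by positivity)] at h5 ⊢
  have h6 : (H : ℝ) * (c / 2 * P ^ 2) ≤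
      H * ((((Tg (H ^ 3) H P₁ P x₁ x₂).image val).card : ℝ) * (H ^ 3 * L ^ 2)) := by
    calc (H : ℝ) * (c / 2 * P ^ 2) = c / 2 * P ^ 2 * H := by ring
      _ ≤ _ := h5
      _ = _ := by ring
  exact le_of_mul_le_mul_left h6 hH0

/-- the parameter `P` in terms of `N` -/
theorem tendsto_P : Tendsto (fun N : ℕ => N / (2 * ⌈(Real.log N) ^ 41⌉₊) - 1) atTop atTop := by
  rw [tendsto_atTop]
  intro M
  filter_upwards [log_pow_small 41 1 one_pos, log_large 1,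
    eventually_ge_atTop ((4 * (M + 1)) ^ 2)] with N h1 h2 h3
  have hN0 : (0 : ℝ) ≤ N := Nat.cast_nonneg _
  have hs : (4 * ((M : ℝ) + 1)) ≤ Real.sqrt N := by
    apply Real.le_sqrt_of_sq_le
    exact_mod_cast h3
  have hlog1 : 1 ≤ (Real.log N) ^ 41 := one_le_pow₀ h2
  have hH : ((⌈(Real.log N) ^ 41⌉₊ : ℕ) : ℝ) ≤ 2 * Real.sqrt N := by
    have := (Nat.ceil_lt_add_one (show 0 ≤ (Real.log N) ^ 41 by linarith)).le
    linarith
  have hHpos : 0 < ⌈(Real.log N) ^ 41⌉₊ := Nat.ceil_pos.2 (by linarith)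
  have h4 : M + 1 ≤ N / (2 * ⌈(Real.log N) ^ 41⌉₊) := by
    rw [Nat.le_div_iff_mul_le (by omega)]
    have h5 : (((M + 1) * (2 * ⌈(Real.log N) ^ 41⌉₊) : ℕ) : ℝ) ≤ N := by
      push_cast
      have hsq : Real.sqrt N * Real.sqrt N = N := Real.mul_self_sqrt hN0
      calc ((M : ℝ) + 1) * (2 * (⌈(Real.log N) ^ 41⌉₊ : ℝ)) ≤
            ((M : ℝ) + 1) * (2 * (2 * Real.sqrt N)) := by gcongr
        _ = (4 * ((M : ℝ) + 1)) * Real.sqrt N := by ring
        _ ≤ Real.sqrt N * Real.sqrt N := by gcongr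
        _ = N := hsq
    exact_mod_cast h5
  omega

/-- **Main theorem** -/
theorem main (α β : ℝ) (hα : 1 ≤ α) (hαβ : α < β) : ∃ N₀ : ℕ, ∀ N : ℕ, N₀ ≤ N →
    (N : ℝ) ^ 2 / (Real.log N) ^ 208 ≤
      (Set.ncard {r : ℚ | α < r ∧ (r : ℝ) < β ∧ r.num ≤ N ∧ Rep r} : ℝ) := by
  obtain ⟨c, hc, h⟩ := main_PH α β hα hαβ
  have h2 := tendsto_P.eventually h
  rw [← eventually_atTop]
  filter_upwards [h2, tendsto_P.eventually (eventually_ge_atTop 1), log_large 1,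
    log_large (512 / c), log_large (2 * 4 ^ 42), log_pow_small 41 (1 / 16) (by norm_num),
    eventually_ge_atTop 1296] with N hN hP1 hL1 hLc hL42 hLs hN3
  set L : ℝ := Real.log N with hL
  set H : ℕ := ⌈L ^ 41⌉₊ with hH
  set P : ℕ := N / (2 * H) - 1 with hP
  have hL0 : 0 < L := by linarith
  have hN0 : (0 : ℝ) < N := by exact_mod_cast (by omega : 0 < N)
  have hlog1 : 1 ≤ L ^ 41 := one_le_pow₀ hL1
  have hHge : L ^ 41 ≤ H := Nat.le_ceil _
  have hHle : (H : ℝ) ≤ 2 * L ^ 41 := by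
    have := (Nat.ceil_lt_add_one (show 0 ≤ L ^ 41 by linarith)).le
    linarith
  have hHpos : 0 < H := Nat.ceil_pos.2 (by linarith)
  have hH0 : (0 : ℝ) < H := by exact_mod_cast hHpos
  have hsq : Real.sqrt N * Real.sqrt N = N := Real.mul_self_sqrt hN0.le
  have hs0 : 0 < Real.sqrt N := Real.sqrt_pos.2 hN0
  have hPN : 2 * H * (P + 1) ≤ N := by
    have e1 : P + 1 ≤ N / (2 * H) := by omega
    calc 2 * H * (P + 1) ≤ 2 * H * (N / (2 * H)) := Nat.mul_le_mul_left _ e1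
      _ ≤ N := Nat.mul_div_le _ _
  -- `H ≤ √N/8`
  have hHs : (H : ℝ) ≤ Real.sqrt N / 8 := by linarith
  have hPge : (N : ℝ) / (4 * H) ≤ P := by
    have e1 : (N : ℝ) / (2 * H) < (N / (2 * H) : ℕ) + 1 := by
      have := Nat.lt_div_mul_add (a := N) (b := 2 * H) (by omega)
      rw [div_lt_iff₀ (by positivity)]
      have e2 : (N : ℝ) < ((N / (2 * H) * (2 * H) + 2 * H : ℕ) : ℝ) := by exact_mod_cast this
      push_cast at e2
      calc (N : ℝ) < _ := e2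
        _ = _ := by push_cast; ring
    have e2 : ((N / (2 * H) : ℕ) : ℝ) = (P : ℝ) + 1 := by
      have : N / (2 * H) = P + 1 := by omega
      rw [this]; push_cast; ring
    rw [e2] at e1
    have e3 : (N : ℝ) / (2 * H) = N / (4 * H) + N / (4 * H) := by field_simp; ring
    have e4 : (2 : ℝ) ≤ N / (4 * H) := by
      rw [le_div_iff₀ (by positivity)]
      have e5 : (36 : ℝ) ≤ Real.sqrt N := by
        apply Real.le_sqrt_of_sq_le
        have : (1296 : ℝ) ≤ N := by exact_mod_cast hN3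
        linarith
      calc 2 * (4 * (H : ℝ)) = 8 * H := by ring
        _ ≤ Real.sqrt N := by linarith
        _ ≤ Real.sqrt N * Real.sqrt N := le_mul_of_one_le_left hs0.le (by linarith)
        _ = N := hsq
    linarith
  have hP0 : (0 : ℝ) < P := lt_of_lt_of_le (by positivity) hPge
  have hPleN : (P : ℝ) ≤ N := by
    have : P ≤ N := by
      calc P ≤ P + 1 := by omega
        _ ≤ 2 * H * (P + 1) := Nat.le_mul_of_pos_left _ (by omega)
        _ ≤ N := hPN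
    exact_mod_cast this
  have hlogP : Real.log P ≤ L := Real.log_le_log hP0 hPleN
  have hPsq : Real.sqrt N ≤ P := by
    refine le_trans ?_ hPge
    rw [le_div_iff₀ (by positivity)]
    calc Real.sqrt N * (4 * (H : ℝ)) ≤ Real.sqrt N * (4 * (Real.sqrt N / 8)) := by gcongr
      _ = (Real.sqrt N * Real.sqrt N) / 2 := by ring
      _ ≤ N := by rw [hsq]; linarith
  have hlogP2 : L / 2 ≤ Real.log P := by
    have := Real.log_le_log hs0 hPsq
    rw [Real.log_sqrt hN0.le] at this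
    exact this
  have hlogP0 : 0 < Real.log P := by linarith
  have c1 : (Real.log P) ^ 41 ≤ H := (pow_le_pow_left₀ hlogP0.le hlogP 41).trans hHge
  have c2 : (H : ℝ) ≤ (Real.log P) ^ 42 := by
    refine hHle.trans ?_
    have e1 : (L / 2) ^ 42 ≤ (Real.log P) ^ 42 := pow_le_pow_left₀ (by positivity) hlogP2 42
    refine le_trans ?_ e1
    have e2 : (L / 2) ^ 42 = L ^ 41 * (L / 2 ^ 42) := by
      rw [div_pow, pow_succ L 41]; ring
    rw [e2]
    have e3 : (2 : ℝ) ≤ L / 2 ^ 42 := by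
      rw [le_div_iff₀ (by positivity)]
      refine le_trans ?_ hL42
      norm_num
    calc 2 * L ^ 41 = L ^ 41 * 2 := by ring
      _ ≤ _ := by gcongr
  have hmain := hN H N c1 c2 hPN
  refine le_trans ?_ hmain
  -- numerics
  have e1 : c * ((N : ℝ) / (4 * H)) ^ 2 / (H ^ 3 * L ^ 2) ≤
      c * P ^ 2 / (H ^ 3 * (Real.log P) ^ 2) := by
    gcongr
  refine le_trans ?_ e1
  have e2 : c * ((N : ℝ) / (4 * H)) ^ 2 / (H ^ 3 * L ^ 2) = c * N ^ 2 / (16 * H ^ 5 * L ^ 2) := by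
    rw [div_pow]
    field_simp
    try ring
  rw [e2, div_le_div_iff₀ (by positivity) (by positivity)]
  have e3 : (H : ℝ) ^ 5 ≤ 32 * L ^ 205 := by
    calc (H : ℝ) ^ 5 ≤ (2 * L ^ 41) ^ 5 := pow_le_pow_left₀ hH0.le hHle 5
      _ = 32 * L ^ 205 := by rw [mul_pow, ← pow_mul]; norm_num
  have e4 : 512 ≤ c * L := by
    rw [div_le_iff₀ hc] at hLc
    linarith
  calc (N : ℝ) ^ 2 * (16 * H ^ 5 * L ^ 2) ≤ N ^ 2 * (16 * (32 * L ^ 205) * L ^ 2) := by gcongr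
    _ = N ^ 2 * (512 * L ^ 207) := by ring
    _ ≤ N ^ 2 * ((c * L) * L ^ 207) := by gcongr
    _ = c * N ^ 2 * L ^ 208 := by ring

end

end Pool.Agent.D3
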