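import Pool.Agent.Work.MP_d3dd4c_nt.Final

/-!
# Many rationals are of the form `(p^2-1)/(q-1)`

For `1 ≤ α < β` at least `N^2/(log N)^208` rational numbers in `(α, β)` with numerator at most `N`
are of the form `(p^2-1)/(q-1)` with `p`, `q` prime. Proof: `p ≡ 1` mod `l` with `l` between `H` and
`2H`, `H` a power of `log N`; then `p^2 - 1 = d k` with `k = (p-1)/l`, `d = l (p+1)`, and the primes
`q ≡ 1` mod `k` below `p^2` are counted with the Bombieri-Vinogradov theorem.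
-/

namespace Pool.Agent.Results.MP_d3dd4c_nt.ManyRationals

/-- In every interval of `(1, ∞)` many rationals of small height have a representation. -/
theorem result (α β : ℝ) (hα : 1 ≤ α) (hαβ : α < β) : ∃ N₀ : ℕ, ∀ N : ℕ, N₀ ≤ N →
    (N : ℝ) ^ 2 / (Real.log N) ^ 208 ≤
      (Set.ncard {r : ℚ | α < r ∧ (r : ℝ) < β ∧ r.num ≤ N ∧
        ∃ p q : ℕ, p.Prime ∧ q.Prime ∧ r = ((p : ℚ) ^ 2 - 1) / ((q : ℚ) - 1)} : ℝ) :=
  Pool.Agent.D3.main α β hα hαβ

end Pool.Agent.Results.MP_d3dd4c_nt.ManyRationals
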